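import Mathlib

/-!
# The bijective pebble game: winning positions of Duplicator, written with lists
-/

set_option autoImplicit false

namespace Pool.Agent.W185.Half

open Function

variable {V W U : Type} {k : ℕ}

/-- `R` is a set of positions in which Duplicator can stay forever. -/
def Good (k : ℕ) (G : SimpleGraph V) (H : SimpleGraph W)
    (R : (Fin k → V) → (Fin k → W) → Prop) : Prop :=
  (∀ a b, R a b → ∀ i j : Fin k,
    (a i = a j ↔ b i = b j) ∧ (G.Adj (a i) (a j) ↔ H.Adj (b i) (b j))) ∧
  (∀ a b, R a b → ∀ i : Fin k, ∃ f : V ≃ W,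
    ∀ v : V, R (update a i v) (update b i (f v)))

/-- Duplicator wins from the position `(a, b)`. -/
def Dup (G : SimpleGraph V) (H : SimpleGraph W) (a : Fin k → V) (b : Fin k → W) : Prop :=
  ∃ R, Good k G H R ∧ R a b

theorem Dup.atomic {G : SimpleGraph V} {H : SimpleGraph W} {a : Fin k → V} {b : Fin k → W}
    (h : Dup G H a b) (i j : Fin k) :
    (a i = a j ↔ b i = b j) ∧ (G.Adj (a i) (a j) ↔ H.Adj (b i) (b j)) := by
  obtain ⟨R, hR, hab⟩ := h
  exact hR.1 a b hab i j

theorem Dup.step {G : SimpleGraph V} {H : SimpleGraph W} {a : Fin k → V} {b : Fin k → W}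
    (h : Dup G H a b) (i : Fin k) :
    ∃ f : V ≃ W, ∀ v, Dup G H (update a i v) (update b i (f v)) := by
  obtain ⟨R, hR, hab⟩ := h
  obtain ⟨f, hf⟩ := hR.2 a b hab i
  exact ⟨f, fun v => ⟨R, hR, hf v⟩⟩

theorem Dup.refl (G : SimpleGraph V) (a : Fin k → V) : Dup G G a a := by
  refine ⟨fun x y => x = y, ⟨?_, ?_⟩, rfl⟩
  · rintro a b rfl i j
    exact ⟨Iff.rfl, Iff.rfl⟩
  · rintro a b rfl i
    exact ⟨Equiv.refl V, fun v => rfl⟩

theorem Dup.symm {G : SimpleGraph V} {H : SimpleGraph W} {a : Fin k → V} {b : Fin k → W}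
    (h : Dup G H a b) : Dup H G b a := by
  obtain ⟨R, hR, hab⟩ := h
  refine ⟨fun x y => R y x, ⟨?_, ?_⟩, hab⟩
  · intro a b h i j
    exact ⟨(hR.1 b a h i j).1.symm, (hR.1 b a h i j).2.symm⟩
  · intro a b h i
    obtain ⟨f, hf⟩ := hR.2 b a h i
    refine ⟨f.symm, fun w => ?_⟩
    have := hf (f.symm w)
    rwa [Equiv.apply_symm_apply] at this

theorem Dup.trans {G : SimpleGraph V} {H : SimpleGraph W} {K : SimpleGraph U}
    {a : Fin k → V} {b : Fin k → W} {c : Fin k → U}
    (h : Dup G H a b) (h' : Dup H K b c) : Dup G K a c := by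
  obtain ⟨R, hR, hab⟩ := h
  obtain ⟨R', hR', hbc⟩ := h'
  refine ⟨fun x z => ∃ y, R x y ∧ R' y z, ⟨?_, ?_⟩, ⟨b, hab, hbc⟩⟩
  · rintro a c ⟨b, h1, h2⟩ i j
    exact ⟨(hR.1 a b h1 i j).1.trans (hR'.1 b c h2 i j).1,
      (hR.1 a b h1 i j).2.trans (hR'.1 b c h2 i j).2⟩
  · rintro a c ⟨b, h1, h2⟩ i
    obtain ⟨f, hf⟩ := hR.2 a b h1 i
    obtain ⟨g, hg⟩ := hR'.2 b c h2 i
    exact ⟨f.trans g, fun v => ⟨_, hf v, hg (f v)⟩⟩

theorem exists_free (σ : Fin k → Fin k) (i : Fin k) : ∃ l, ∀ j, j ≠ i → σ j ≠ l := by
  by_contra hc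
  push Not at hc
  choose g hg1 hg2 using hc
  have hinj : Injective g := by
    intro x y hxy
    rw [← hg2 x, ← hg2 y, hxy]
  obtain ⟨l, hl⟩ := (Finite.injective_iff_surjective.mp hinj) i
  exact hg1 l hl

theorem Dup.comp {G : SimpleGraph V} {H : SimpleGraph W} {a : Fin k → V} {b : Fin k → W}
    (h : Dup G H a b) (σ : Fin k → Fin k) : Dup G H (a ∘ σ) (b ∘ σ) := by
  refine ⟨fun x y => ∃ a b, Dup G H a b ∧ ∃ σ : Fin k → Fin k, x = a ∘ σ ∧ y = b ∘ σ,
    ⟨?_, ?_⟩, ⟨a, b, h, σ, rfl, rfl⟩⟩
  · rintro x y ⟨a, b, h, σ, rfl, rfl⟩ i j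
    exact h.atomic (σ i) (σ j)
  · rintro x y ⟨a, b, h, σ, rfl, rfl⟩ i
    obtain ⟨l, hl⟩ := exists_free σ i
    obtain ⟨f, hf⟩ := h.step l
    refine ⟨f, fun v => ⟨_, _, hf v, update σ i l, ?_, ?_⟩⟩
    · funext j
      by_cases hj : j = i
      · subst hj; simp
      · simp [update_of_ne hj, update_of_ne (hl j hj)]
    · funext j
      by_cases hj : j = i
      · subst hj; simp
      · simp [update_of_ne hj, update_of_ne (hl j hj)]

/-- The position given by a list: the first pebbles lie on the members of the list, all others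
on its head. -/
def tup (k : ℕ) (x : V) (l : List V) : Fin k → V := fun i => (x :: l).getD i x

/-- Duplicator wins from the position given by two lists. -/
def E (k : ℕ) (G : SimpleGraph V) (H : SimpleGraph W) : List V → List W → Prop
  | x :: l, y :: m => l.length = m.length ∧ Dup G H (tup k x l) (tup k y m)
  | _, _ => False

theorem E_cons {G : SimpleGraph V} {H : SimpleGraph W} {x : V} {l : List V} {y : W} {m : List W} :
    E k G H (x :: l) (y :: m) ↔ l.length = m.length ∧ Dup G H (tup k x l) (tup k y m) :=
  Iff.rfl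

theorem E.len {G : SimpleGraph V} {H : SimpleGraph W} {l : List V} {m : List W}
    (h : E k G H l m) : l.length = m.length := by
  cases l with
  | nil => exact h.elim
  | cons x l =>
    cases m with
    | nil => exact h.elim
    | cons y m => simpa using h.1

theorem E.refl (G : SimpleGraph V) (x : V) (l : List V) : E k G G (x :: l) (x :: l) :=
  ⟨rfl, Dup.refl G _⟩

theorem E.symm {G : SimpleGraph V} {H : SimpleGraph W} {l : List V} {m : List W}
    (h : E k G H l m) : E k H G m l := by
  cases l with
  | nil => exact h.elim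
  | cons x l =>
    cases m with
    | nil => exact h.elim
    | cons y m => exact ⟨h.1.symm, h.2.symm⟩

theorem E.trans {G : SimpleGraph V} {H : SimpleGraph W} {K : SimpleGraph U}
    {l : List V} {m : List W} {n : List U}
    (h : E k G H l m) (h' : E k H K m n) : E k G K l n := by
  cases l with
  | nil => exact h.elim
  | cons x l =>
    cases m with
    | nil => exact h.elim
    | cons y m =>
      cases n with
      | nil => exact h'.elim
      | cons z n => exact ⟨h.1.trans h'.1, h.2.trans h'.2⟩

theorem tup_mem_zip (x : V) (l : List V) (y : W) (m : List W) (hl : l.length = m.length)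
    (t : Fin k) : (tup k x l t, tup k y m t) ∈ List.zip (x :: l) (y :: m) := by
  by_cases ht : (t : ℕ) < (x :: l).length
  · have ht' : (t : ℕ) < (y :: m).length := by simpa [← hl] using ht
    have h1 : tup k x l t = (x :: l)[(t : ℕ)] := by
      unfold tup
      exact List.getD_eq_getElem _ _ ht
    have h2 : tup k y m t = (y :: m)[(t : ℕ)] := by
      unfold tup
      exact List.getD_eq_getElem _ _ ht'
    rw [h1, h2]
    refine List.mem_iff_getElem.mpr ⟨t, ?_, ?_⟩
    · simp only [List.length_zip]
      omega
    · exact List.getElem_zip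
  · have ht' : ¬ (t : ℕ) < (y :: m).length := by simpa [← hl] using ht
    have h1 : tup k x l t = x := by
      unfold tup
      exact List.getD_eq_default _ _ (by omega)
    have h2 : tup k y m t = y := by
      unfold tup
      exact List.getD_eq_default _ _ (by omega)
    rw [h1, h2]
    simp

theorem mem_zip_tup (x : V) (l : List V) (y : W) (m : List W) (hl : l.length = m.length)
    (hk : (x :: l).length ≤ k) {q : V × W} (hq : q ∈ List.zip (x :: l) (y :: m)) :
    ∃ t : Fin k, (t : ℕ) < (x :: l).length ∧ q = (tup k x l t, tup k y m t) := by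
  obtain ⟨t, ht, rfl⟩ := List.mem_iff_getElem.mp hq
  have ht1 : t < (x :: l).length := by
    simp only [List.length_zip] at ht; omega
  have ht2 : t < (y :: m).length := by
    simp only [List.length_zip] at ht; omega
  refine ⟨⟨t, by omega⟩, ht1, ?_⟩
  unfold tup
  rw [List.getD_eq_getElem _ _ ht1, List.getD_eq_getElem _ _ ht2]
  exact List.getElem_zip

/-- Forgetting, repeating and permuting pebbles. -/
theorem E.sub {G : SimpleGraph V} {H : SimpleGraph W} {l l2 : List V} {m m2 : List W}
    (h : E k G H l m) (hk : l.length ≤ k) (hl2 : l2.length = m2.length) (hne : l2 ≠ [])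
    (hs : ∀ q ∈ List.zip l2 m2, q ∈ List.zip l m) : E k G H l2 m2 := by
  cases l with
  | nil => exact h.elim
  | cons x l =>
    cases m with
    | nil => exact h.elim
    | cons y m =>
      cases l2 with
      | nil => exact absurd rfl hne
      | cons x2 l2 =>
        cases m2 with
        | nil => simp at hl2
        | cons y2 m2 =>
          have hl2' : l2.length = m2.length := by simpa using hl2
          refine ⟨hl2', ?_⟩
          have hex : ∀ t : Fin k, ∃ i : Fin k,
              (tup k x2 l2 t, tup k y2 m2 t) = (tup k x l i, tup k y m i) := by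
            intro t
            have h1 := hs _ (tup_mem_zip x2 l2 y2 m2 hl2' t)
            obtain ⟨i, -, hi⟩ := mem_zip_tup x l y m h.1 hk h1
            exact ⟨i, hi⟩
          choose σ hσ using hex
          have h3 := h.2.comp σ
          have e1 : tup k x l ∘ σ = tup k x2 l2 := by
            funext t
            exact (congrArg Prod.fst (hσ t)).symm
          have e2 : tup k y m ∘ σ = tup k y2 m2 := by
            funext t
            exact (congrArg Prod.snd (hσ t)).symm
          rwa [e1, e2] at h3

theorem E.atomic {G : SimpleGraph V} {H : SimpleGraph W} {l : List V} {m : List W}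
    (h : E k G H l m) (hk : l.length ≤ k) {q r : V × W} (hq : q ∈ List.zip l m)
    (hr : r ∈ List.zip l m) : (q.1 = r.1 ↔ q.2 = r.2) ∧ (G.Adj q.1 r.1 ↔ H.Adj q.2 r.2) := by
  cases l with
  | nil => exact h.elim
  | cons x l =>
    cases m with
    | nil => exact h.elim
    | cons y m =>
      obtain ⟨i, -, rfl⟩ := mem_zip_tup x l y m h.1 hk hq
      obtain ⟨j, -, rfl⟩ := mem_zip_tup x l y m h.1 hk hr
      exact h.2.atomic i j

/-- A new pebble is placed. -/
theorem E.forth {G : SimpleGraph V} {H : SimpleGraph W} {l : List V} {m : List W}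
    (h : E k G H l m) (hk : l.length + 1 ≤ k) :
    ∃ f : V ≃ W, ∀ v, E k G H (v :: l) (f v :: m) := by
  cases l with
  | nil => exact h.elim
  | cons x l =>
    cases m with
    | nil => exact h.elim
    | cons y m =>
      have hlen : l.length = m.length := h.1
      obtain ⟨f, hf⟩ := h.2.step (⟨(x :: l).length, by omega⟩ : Fin k)
      refine ⟨f, fun v => ⟨by simpa using hlen, ?_⟩⟩
      have hex : ∀ t : Fin k, ∃ i : Fin k,
          tup k v (x :: l) t = update (tup k x l) (⟨(x :: l).length, by omega⟩ : Fin k) v i ∧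
          tup k (f v) (y :: m) t =
            update (tup k y m) (⟨(x :: l).length, by omega⟩ : Fin k) (f v) i := by
        intro t
        have hm := tup_mem_zip v (x :: l) (f v) (y :: m) (by simpa using hlen) t
        rw [List.zip_cons_cons, List.mem_cons] at hm
        rcases hm with hm | hm
        · refine ⟨⟨(x :: l).length, by omega⟩, ?_, ?_⟩
          · rw [update_self]; exact congrArg Prod.fst hm
          · rw [update_self]; exact congrArg Prod.snd hm
        · obtain ⟨i, hi, he⟩ := mem_zip_tup (k := k) x l y m hlen (by omega) hm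
          have hne : i ≠ ⟨(x :: l).length, by omega⟩ := by
            intro hc
            rw [hc] at hi
            simp at hi
          refine ⟨i, ?_, ?_⟩
          · rw [update_of_ne hne]; exact congrArg Prod.fst he
          · rw [update_of_ne hne]; exact congrArg Prod.snd he
      choose σ hσ using hex
      have h3 := (hf v).comp σ
      have e1 : update (tup k x l) (⟨(x :: l).length, by omega⟩ : Fin k) v ∘ σ
          = tup k v (x :: l) := by
        funext t
        exact (hσ t).1.symm
      have e2 : update (tup k y m) (⟨(x :: l).length, by omega⟩ : Fin k) (f v) ∘ σ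
          = tup k (f v) (y :: m) := by
        funext t
        exact (hσ t).2.symm
      rwa [e1, e2] at h3

end Pool.Agent.W185.Half
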