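import Pool.Agent.W185.Half.Rank3

/-!
# Isomorphisms between trivial structures
-/

set_option autoImplicit false

namespace Pool.Agent.W185.Half

open Function Finset

/-- Types of `V` against types of a second structure with vertex set `W`. -/
structure XS {V : Type} (T : TS V) (W : Type) where
  X1 : V → W → Prop
  X2 : V → V → W → W → Prop
  X3 : V → V → V → W → W → W → Prop
  comp1 : ∀ {x y w}, T.t1 x y → X1 y w → X1 x w
  back1 : ∀ {x y w}, X1 x w → X1 y w → T.t1 x y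
  comp2 : ∀ {x y u v w z}, T.t2 x y u v → X2 u v w z → X2 x y w z
  back2 : ∀ {x y u v w z}, X2 x y w z → X2 u v w z → T.t2 x y u v
  p1 : ∀ {x y w z}, X2 x y w z → X1 x w
  swap : ∀ {x y w z}, X2 x y w z → X2 y x z w
  dg : ∀ {x w}, X1 x w → X2 x x w w
  eqv : ∀ {x y w z}, X2 x y w z → (x = y ↔ w = z)
  p13 : ∀ {x y u w z t}, X3 x y u w z t → X2 x u w t
  p23 : ∀ {x y u w z t}, X3 x y u w z t → X2 y u z t
  f0 : ∃ f : V ≃ W, ∀ x, X1 x (f x)
  f1 : ∀ {x w}, X1 x w → ∃ f : V ≃ W, ∀ y, X2 x y w (f y)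
  f2 : ∀ {x y w z}, X2 x y w z → ∃ f : V ≃ W, ∀ u, X3 x y u w z (f u)
  small : ∀ s : Finset V, s.card ≤ 5 → ∃ g : V → W, ∀ x ∈ s, ∀ y ∈ s, X2 x y (g x) (g y)

theorem setoid_equiv {A B : Type} [Finite A] [Finite B] (S : Setoid A) (S' : Setoid B) {s : ℕ}
    (hs0 : 0 < s) (hs : ∀ a, Nat.card {a' // S a a'} = s) (hs' : ∀ b, Nat.card {b' // S' b b'} = s)
    (hAB : Nat.card A = Nat.card B) : ∃ e : A ≃ B, ∀ a a', S a a' ↔ S' (e a) (e a') := by
  classical
  have hfib : ∀ {A : Type} [Finite A] (S : Setoid A), (∀ a, Nat.card {a' // S a a'} = s) →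
      ∀ q : Quotient S, Nat.card {a // Quotient.mk S a = q} = s := by
    intro A _ S hs q
    rw [← hs q.out]
    refine Nat.card_congr (Equiv.subtypeEquivRight ?_)
    intro a
    constructor
    · rintro rfl
      exact Quotient.mk_out a
    · intro h
      rw [← Quotient.out_eq q]
      exact (Quotient.sound h).symm
  have hcount : ∀ {A : Type} [Finite A] (S : Setoid A), (∀ a, Nat.card {a' // S a a'} = s) →
      Nat.card A = Nat.card (Quotient S) * s := by
    intro A _ S hs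
    haveI : Fintype A := Fintype.ofFinite A
    haveI : Fintype (Quotient S) := Fintype.ofFinite _
    have h1 := Nat.card_congr (Equiv.sigmaFiberEquiv (Quotient.mk S))
    rw [← h1, Nat.card_sigma, Finset.sum_congr rfl (fun q _ => hfib S hs q)]
    simp [Nat.card_eq_fintype_card]
  have hQ : Nat.card (Quotient S) = Nat.card (Quotient S') := by
    have h1 := hcount S hs
    have h2 := hcount S' hs'
    rw [h1, h2] at hAB
    exact Nat.eq_of_mul_eq_mul_right hs0 hAB
  let β : Quotient S ≃ Quotient S' := (Finite.card_eq.mp hQ).some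
  have e : ∀ q, {a // Quotient.mk S a = q} ≃ {b // β.symm (Quotient.mk S' b) = q} := by
    intro q
    refine (Finite.card_eq.mp ?_).some
    rw [hfib S hs q, ← hfib S' hs' (β q)]
    refine Nat.card_congr (Equiv.subtypeEquivRight ?_)
    intro b
    exact (Equiv.symm_apply_eq β).symm
  refine ⟨Equiv.ofFiberEquiv e, ?_⟩
  intro a a'
  have h1 := Equiv.ofFiberEquiv_map e a
  have h2 := Equiv.ofFiberEquiv_map e a'
  constructor
  · intro h
    have h3 : Quotient.mk S a = Quotient.mk S a' := Quotient.sound h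
    rw [← h1, ← h2] at h3
    exact Quotient.exact (β.symm.injective h3)
  · intro h
    have h3 : Quotient.mk S' (Equiv.ofFiberEquiv e a) = Quotient.mk S' (Equiv.ofFiberEquiv e a') :=
      Quotient.sound h
    have h4 : Quotient.mk S a = Quotient.mk S a' := by
      rw [← h1, ← h2, h3]
    exact Quotient.exact h4

namespace TS

variable {V : Type} {T : TS V}

/-- The component of `x`. -/
def comp (T : TS V) (x : V) : Set V := {y | T.t1 x y ∨ ¬ T.Hom x y}

theorem mem_comp {x y : V} : y ∈ T.comp x ↔ T.t1 x y ∨ ¬ T.Hom x y := Iff.rfl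

theorem comp_self (x : V) : x ∈ T.comp x := Or.inl (T.refl1 x)

theorem comp_cell {x y : V} (h : T.t1 x y) : T.comp y = T.comp x := by
  ext z
  rw [mem_comp, mem_comp]
  constructor
  · rintro (h1 | h1)
    · exact Or.inl (T.trans1 h h1)
    · exact Or.inr (fun h2 => h1 (h2.left h))
  · rintro (h1 | h1)
    · exact Or.inl (T.trans1 (T.symm1 h) h1)
    · exact Or.inr (fun h2 => h1 (h2.left (T.symm1 h)))

theorem comp_eq {x y : V} (hT : T.TT1 x ∨ T.TT2 x ∨ T.TT3 x) (h : y ∈ T.comp x) :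
    T.comp y = T.comp x := by
  rw [mem_comp] at h
  by_cases hxy : T.t1 x y
  · exact comp_cell hxy
  have hy : ¬ T.Hom x y := h.resolve_left hxy
  rcases hT with h1 | h1 | h1
  · exact absurd (h1.1 y hxy) hy
  · obtain ⟨d, hxd, hnd, hoth, -⟩ := h1
    have hdy : T.t1 d y := by
      by_contra hc
      exact hy (hoth y hxy hc).1
    rw [comp_cell hdy]
    have ha : ∀ z, T.t1 d z → ¬ T.Hom x z := fun z hz h2 => hnd (h2.right (T.symm1 hz))
    have hb : ∀ z, T.t1 x z → ¬ T.Hom d z := fun z hz h2 =>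
      hnd (h2.right (T.symm1 hz)).symm
    ext z
    rw [mem_comp, mem_comp]
    by_cases h3 : T.t1 x z
    · exact ⟨fun _ => Or.inl h3, fun _ => Or.inr (hb z h3)⟩
    by_cases h4 : T.t1 d z
    · exact ⟨fun _ => Or.inr (ha z h4), fun _ => Or.inl h4⟩
    have h5 := hoth z h3 h4
    constructor
    · rintro (h6 | h6)
      · exact absurd h6 h4
      · exact absurd h5.2 h6
    · rintro (h6 | h6)
      · exact absurd h6 h3
      · exact absurd h5.1 h6
  · exact absurd (h1.1 y hxy) hy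

theorem Rk2.left {x u : V} (h : T.Rk2 x) (hu : T.t1 x u) : T.Rk2 u := by
  intro y z hy hz hyu hzu
  obtain ⟨f, hf⟩ := T.f1 (T.symm1 hu)
  have h1 := hf y
  have h2 := hf z
  have h3 : f y ≠ x := fun hc => hyu ((T.eqv h1).mpr hc.symm).symm
  have h4 : f z ≠ x := fun hc => hzu ((T.eqv h2).mpr hc.symm).symm
  have h5 := h (f y) (f z) (T.trans1 hu (T.trans1 hy (p2 h1)))
    (T.trans1 hu (T.trans1 hz (p2 h2))) h3 h4
  exact T.trans2 h1 (T.trans2 h5 (T.symm2 h2))

end TS

namespace XS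

variable {V W : Type} {T : TS V} (X : XS T W)

theorem p2 {x y : V} {w z : W} (h : X.X2 x y w z) : X.X1 y z := X.p1 (X.swap h)

theorem cross {x y : V} {w z : W} (h1 : X.X1 x w) (h2 : X.X1 y z) (h : T.Hom x y) :
    X.X2 x y w z := by
  obtain ⟨f, hf⟩ := X.f1 h1
  have h3 := hf (f.symm z)
  rw [Equiv.apply_symm_apply] at h3
  exact X.comp2 (h _ (X.back1 h2 (X.p2 h3))) h3

theorem rk2 {x y : V} {w z : W} (hr : T.Rk2 x) (hxy : T.t1 x y) (hne : x ≠ y)
    (h1 : X.X1 x w) (h2 : X.X1 y z) (hwz : w ≠ z) : X.X2 x y w z := by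
  obtain ⟨f, hf⟩ := X.f1 h1
  have h3 := hf (f.symm z)
  rw [Equiv.apply_symm_apply] at h3
  have h4 : T.t1 y (f.symm z) := X.back1 h2 (X.p2 h3)
  have h5 : f.symm z ≠ x := fun hc => hwz ((X.eqv h3).mp hc.symm)
  exact X.comp2 (hr _ _ hxy (T.trans1 hxy h4) hne.symm h5) h3

variable [Fintype V]

theorem comp3 {x : V} (h : T.TT3 x) :
    ∃ g : V → W, ∀ y ∈ T.comp x, ∀ z ∈ T.comp x, X.X2 y z (g y) (g z) := by
  obtain ⟨hiso, hcard⟩ := h
  have hmem : ∀ y ∈ T.comp x, T.t1 x y := by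
    intro y hy
    by_contra hc
    exact (TS.mem_comp.mp hy).elim hc (fun h => h (hiso y hc))
  have hfin : ({y | T.t1 x y} : Set V).Finite := Set.toFinite _
  obtain ⟨g, hg⟩ := X.small hfin.toFinset (by
    rw [← Set.ncard_eq_toFinset_card _ hfin]; exact hcard)
  refine ⟨g, fun y hy z hz => hg y ?_ z ?_⟩
  · rw [Set.Finite.mem_toFinset]; exact hmem y hy
  · rw [Set.Finite.mem_toFinset]; exact hmem z hz

theorem comp2' {x : V} (h : T.TT2 x) :
    ∃ g : V → W, ∀ y ∈ T.comp x, ∀ z ∈ T.comp x, X.X2 y z (g y) (g z) := by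
  classical
  obtain ⟨d, hxd, hnd, hoth, hr, hrd, hu1, hu2, hty⟩ := h
  have hmem : ∀ y ∈ T.comp x, T.t1 x y ∨ T.t1 d y := by
    intro y hy
    by_contra hc
    push Not at hc
    exact (TS.mem_comp.mp hy).elim hc.1 (fun h => h (hoth y hc.1 hc.2).1)
  obtain ⟨f0, hf0⟩ := X.f0
  -- uniqueness of mates
  have uc : ∀ c c' y, T.t2 c y x d → T.t2 c' y x d → c = c' := by
    intro c c' y h1 h2
    obtain ⟨f, hf⟩ := T.f1 (TS.p2 h1)
    have h3 := T.swap (hf c)
    have h4 := T.swap (hf c')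
    have h5 := hu2 (f c) (T.trans2 (T.symm2 h1) h3)
    have h6 := hu2 (f c') (T.trans2 (T.symm2 h2) h4)
    exact f.injective (h5.trans h6.symm)
  have ud : ∀ c y y', T.t2 c y x d → T.t2 c y' x d → y = y' := by
    intro c y y' h1 h2
    obtain ⟨f, hf⟩ := T.f1 (T.p1 h1)
    have h5 := hu1 (f y) (T.trans2 (T.symm2 h1) (hf y))
    have h6 := hu1 (f y') (T.trans2 (T.symm2 h2) (hf y'))
    exact f.injective (h5.trans h6.symm)
  have hm : ∀ y, ∃ c, T.t1 d y → T.t2 c y x d := by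
    intro y
    by_cases hy : T.t1 d y
    · obtain ⟨f, hf⟩ := T.f1 hy
      exact ⟨f x, fun _ => T.symm2 (T.swap (hf x))⟩
    · exact ⟨y, fun h => absurd h hy⟩
  choose m hm using hm
  have hgd : ∀ y, ∃ w, T.t1 d y → X.X2 (m y) y (f0 (m y)) w := by
    intro y
    obtain ⟨f, hf⟩ := X.f1 (hf0 (m y))
    exact ⟨f y, fun _ => hf y⟩
  choose gd hgd using hgd
  -- uniqueness of mates on the other side
  have uw : ∀ c y c' y' w w' z, X.X2 c y w z → X.X2 c' y' w' z → T.t2 c y x d →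
      T.t2 c' y' x d → w = w' := by
    intro c y c' y' w w' z h1 h2 h3 h4
    obtain ⟨f, hf⟩ := X.f1 (X.p2 h1)
    have h5 := X.swap (hf (f.symm w))
    have h6 := X.swap (hf (f.symm w'))
    rw [Equiv.apply_symm_apply] at h5 h6
    have h7 : T.t2 (f.symm w) y x d := T.trans2 (X.back2 h5 h1) h3
    have h8 : T.t2 (f.symm w') y x d := T.trans2 (X.back2 h6 h2) h4
    exact f.symm.injective (uc _ _ _ h7 h8)
  have hone : ∀ y z, T.t1 x y → T.t1 d z → X.X2 y z (f0 y) (gd z) := by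
    intro y z hy hz
    have hzm := hgd z hz
    by_cases hyz : y = m z
    · rw [hyz]; exact hzm
    obtain ⟨f, hf⟩ := X.f1 (hf0 y)
    have h3 := hf (f.symm (gd z))
    rw [Equiv.apply_symm_apply] at h3
    have h4 : T.t1 z (f.symm (gd z)) := X.back1 (X.p2 hzm) (X.p2 h3)
    have h5 : ¬ T.t2 y (f.symm (gd z)) x d := by
      intro hc
      exact hyz (f0.injective (uw _ _ _ _ _ _ _ h3 hzm hc (hm z hz)))
    have h6 : ¬ T.t2 y z x d := fun hc => hyz (uc _ _ _ hc (hm z hz))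
    obtain ⟨f', hf'⟩ := T.f1 (T.symm1 hy)
    have h7 := hf' z
    have h8 := hf' (f.symm (gd z))
    have h9 := hty (f' z) (f' (f.symm (gd z))) (T.trans1 hz (TS.p2 h7))
      (T.trans1 hz (T.trans1 h4 (TS.p2 h8))) (fun hc => h6 (T.trans2 h7 (T.symm2 hc)))
      (fun hc => h5 (T.trans2 h8 (T.symm2 hc)))
    exact X.comp2 (T.trans2 h7 (T.trans2 h9 (T.symm2 h8))) h3
  refine ⟨fun y => if T.t1 x y then f0 y else gd y, ?_⟩
  intro y hy z hz
  have hnot : ∀ y, T.t1 d y → ¬ T.t1 x y := fun y h1 h2 => hxd (T.trans1 h2 (T.symm1 h1))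
  rcases hmem y hy with hy1 | hy1 <;> rcases hmem z hz with hz1 | hz1
  · simp only [hy1, hz1, if_true]
    by_cases hyz : y = z
    · rw [hyz]; exact X.dg (hf0 z)
    · exact X.rk2 (hr.left hy1) (T.trans1 (T.symm1 hy1) hz1) hyz (hf0 y) (hf0 z)
        (fun h => hyz (f0.injective h))
  · simp only [hy1, hnot z hz1, if_true, if_false]
    exact hone y z hy1 hz1
  · simp only [hz1, hnot y hy1, if_true, if_false]
    exact X.swap (hone z y hz1 hy1)
  · simp only [hnot y hy1, hnot z hz1, if_false]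
    have h1 := hgd y hy1
    have h2 := hgd z hz1
    by_cases hyz : y = z
    · rw [hyz]; exact X.dg (X.p2 h2)
    · refine X.rk2 (hrd.left hy1) (T.trans1 (T.symm1 hy1) hz1) hyz (X.p2 h1) (X.p2 h2) ?_
      intro hc
      rw [hc] at h1
      have h3 := f0.injective (uw _ _ _ _ _ _ _ h1 h2 (hm y hy1) (hm z hz1))
      have h4 := hm y hy1
      rw [h3] at h4
      exact hyz (ud _ _ _ h4 (hm z hz1))

theorem comp1' {x : V} (h : T.TT1 x) :
    ∃ g : V → W, ∀ y ∈ T.comp x, ∀ z ∈ T.comp x, X.X2 y z (g y) (g z) := by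
  classical
  obtain ⟨hiso, a, hax, hs, htr, hty⟩ := h
  have hmem : ∀ y ∈ T.comp x, T.t1 x y := by
    intro y hy
    by_contra hc
    exact (TS.mem_comp.mp hy).elim hc (fun h => h (hiso y hc))
  obtain ⟨f0, hf0⟩ := X.f0
  haveI : Finite W := Finite.of_equiv V f0
  let S : Setoid {y // T.t1 x y} :=
    ⟨fun y z => y = z ∨ T.t2 y.1 z.1 x a, fun y => Or.inl rfl, by
      rintro y z (h | h)
      · exact Or.inl h.symm
      · exact Or.inr (T.trans2 (T.swap h) hs), by
      rintro y z u (rfl | h1) (rfl | h2)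
      · exact Or.inl rfl
      · exact Or.inr h2
      · exact Or.inr h1
      · exact (htr _ _ _ h1 h2).imp Subtype.ext id⟩
  have trW : ∀ w1 w2 w3, X.X2 x a w1 w2 → X.X2 x a w2 w3 → w1 = w3 ∨ X.X2 x a w1 w3 := by
    intro w1 w2 w3 h1 h2
    obtain ⟨f, hf⟩ := X.f2 h1
    have h3 := X.p13 (hf (f.symm w3))
    have h4 := X.p23 (hf (f.symm w3))
    rw [Equiv.apply_symm_apply] at h3 h4
    have h5 : T.t2 a (f.symm w3) x a := X.back2 h4 h2
    rcases htr _ _ _ (T.refl2 x a) h5 with h6 | h6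
    · exact Or.inl ((X.eqv h3).mp h6)
    · exact Or.inr (X.comp2 (T.symm2 h6) h3)
  let S' : Setoid {w // X.X1 x w} :=
    ⟨fun y z => y = z ∨ X.X2 x a y.1 z.1, fun y => Or.inl rfl, by
      rintro y z (h | h)
      · exact Or.inl h.symm
      · exact Or.inr (X.comp2 (T.symm2 hs) (X.swap h)), by
      rintro y z u (rfl | h1) (rfl | h2)
      · exact Or.inl rfl
      · exact Or.inr h2
      · exact Or.inr h1
      · exact (trW _ _ _ h1 h2).imp Subtype.ext id⟩
  -- class sizes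
  have hcW : ∀ y, T.t1 x y → ∀ w, X.X1 x w →
      Nat.card {z : V // y = z ∨ T.t2 y z x a} = Nat.card {z : W // w = z ∨ X.X2 x a w z} := by
    intro y hy w hw
    obtain ⟨f, hf⟩ := X.f1 (X.comp1 (T.symm1 hy) hw)
    refine Nat.card_congr (f.subtypeEquiv ?_)
    intro z
    constructor
    · rintro (h1 | h1)
      · exact Or.inl ((X.eqv (hf z)).mp h1)
      · exact Or.inr (X.comp2 (T.symm2 h1) (hf z))
    · rintro (h1 | h1)
      · exact Or.inl ((X.eqv (hf z)).mpr h1)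
      · exact Or.inr (X.back2 (hf z) h1)
  have hSc : ∀ y : {y // T.t1 x y}, Nat.card {z // S y z} =
      Nat.card {z : V // y.1 = z ∨ T.t2 y.1 z x a} := by
    intro y
    refine Nat.card_congr ⟨fun z => ⟨z.1.1, z.2.imp (congrArg Subtype.val) id⟩,
      fun z => ⟨⟨z.1, ?_⟩, z.2.imp (fun h => Subtype.ext h) id⟩, fun z => rfl, fun z => rfl⟩
    rcases z.2 with h1 | h1
    · rw [← h1]; exact y.2
    · exact T.trans1 (T.symm1 (T.p1 hs)) (T.symm1 (TS.p2 h1))
  have hSc' : ∀ y : {w // X.X1 x w}, Nat.card {z // S' y z} =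
      Nat.card {z : W // y.1 = z ∨ X.X2 x a y.1 z} := by
    intro y
    refine Nat.card_congr ⟨fun z => ⟨z.1.1, z.2.imp (congrArg Subtype.val) id⟩,
      fun z => ⟨⟨z.1, ?_⟩, z.2.imp (fun h => Subtype.ext h) id⟩, fun z => rfl, fun z => rfl⟩
    rcases z.2 with h1 | h1
    · rw [← h1]; exact y.2
    · exact X.comp1 (T.symm1 (T.p1 hs)) (X.p2 h1)
  obtain ⟨e, he⟩ := setoid_equiv S S' (s := Nat.card {z : V // x = z ∨ T.t2 x z x a})
    (by
      haveI : Nonempty {z : V // x = z ∨ T.t2 x z x a} := ⟨⟨x, Or.inl rfl⟩⟩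
      exact Nat.card_pos)
    (by
      intro y
      rw [hSc y, hcW y.1 y.2 (f0 x) (hf0 x), hcW x (T.refl1 x) (f0 x) (hf0 x)])
    (by
      intro w
      rw [hSc' w, ← hcW x (T.refl1 x) w.1 w.2])
    (by
      refine Nat.card_congr (f0.subtypeEquiv ?_)
      intro z
      constructor
      · intro h1
        exact X.comp1 h1 (hf0 z)
      · intro h1
        exact X.back1 h1 (hf0 z))
  refine ⟨fun y => if h : T.t1 x y then (e ⟨y, h⟩).1 else f0 y, ?_⟩
  intro y hy z hz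
  have hy1 := hmem y hy
  have hz1 := hmem z hz
  simp only [hy1, hz1, dif_pos]
  set w := e ⟨y, hy1⟩ with hw
  set v := e ⟨z, hz1⟩ with hv
  have hyw : X.X1 y w.1 := X.comp1 (T.symm1 hy1) w.2
  have hzv : X.X1 z v.1 := X.comp1 (T.symm1 hz1) v.2
  by_cases hyz : y = z
  · have hwv : w = v := by rw [hw, hv]; congr
    rw [hwv, hyz]
    exact X.dg hzv
  have hwv : w ≠ v := by
    intro hc
    apply hyz
    have := e.injective (hw.symm.trans (hc.trans hv))
    exact congrArg Subtype.val this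
  have hwv' : w.1 ≠ v.1 := fun hc => hwv (Subtype.ext hc)
  by_cases hα : T.t2 y z x a
  · have h1 : S ⟨y, hy1⟩ ⟨z, hz1⟩ := Or.inr hα
    rcases (he _ _).mp h1 with h2 | h2
    · exact absurd h2 hwv
    · exact X.comp2 hα h2
  · obtain ⟨f, hf⟩ := X.f1 hyw
    have h3 := hf (f.symm v.1)
    rw [Equiv.apply_symm_apply] at h3
    have h4 : T.t1 z (f.symm v.1) := X.back1 hzv (X.p2 h3)
    have h5 : f.symm v.1 ≠ y := fun hc => hwv' ((X.eqv h3).mp hc.symm)
    have h6 : ¬ T.t2 y (f.symm v.1) x a := by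
      intro hc
      have h7 : X.X2 x a w.1 v.1 := X.comp2 (T.symm2 hc) h3
      have h8 : S' w v := Or.inr h7
      rcases (he _ _).mpr h8 with h9 | h9
      · exact hyz (congrArg Subtype.val h9)
      · exact hα h9
    obtain ⟨f', hf'⟩ := T.f1 (T.symm1 hy1)
    have h7 := hf' z
    have h8 := hf' (f.symm v.1)
    have h9 := hty (f' z) (f' (f.symm v.1)) (T.trans1 hz1 (TS.p2 h7))
      (T.trans1 hz1 (T.trans1 h4 (TS.p2 h8)))
      (fun hc => hyz ((T.eqv h7).mpr hc.symm)) (fun hc => h5 ((T.eqv h8).mpr hc.symm).symm)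
      (fun hc => hα (T.trans2 h7 hc)) (fun hc => h6 (T.trans2 h8 hc))
    exact X.comp2 (T.trans2 h7 (T.trans2 h9 (T.symm2 h8))) h3

theorem glue (hT : ∀ x, T.TT1 x ∨ T.TT2 x ∨ T.TT3 x) :
    ∃ φ : V ≃ W, ∀ x y, X.X2 x y (φ x) (φ y) := by
  classical
  have hex : ∀ K : Set V, (∃ x, T.comp x = K) →
      ∃ g : V → W, ∀ y ∈ K, ∀ z ∈ K, X.X2 y z (g y) (g z) := by
    rintro K ⟨x, rfl⟩
    rcases hT x with h | h | h
    · exact X.comp1' h
    · exact X.comp2' h
    · exact X.comp3 h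
  choose g hg using hex
  have hgc : ∀ K K' h h', K = K' → g K h = g K' h' := by
    rintro K K' h h' rfl; rfl
  let φ : V → W := fun x => g (T.comp x) ⟨x, rfl⟩ x
  have hφ1 : ∀ x, X.X1 x (φ x) := fun x =>
    X.p1 (hg (T.comp x) ⟨x, rfl⟩ x (TS.comp_self x) x (TS.comp_self x))
  have hφ : ∀ x y, X.X2 x y (φ x) (φ y) := by
    intro x y
    by_cases hy : y ∈ T.comp x
    · have h1 : T.comp y = T.comp x := TS.comp_eq (hT x) hy
      have h2 : φ y = g (T.comp x) ⟨x, rfl⟩ y := by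
        show g (T.comp y) ⟨y, rfl⟩ y = _
        rw [hgc _ _ _ ⟨x, rfl⟩ h1]
      rw [h2]
      exact hg (T.comp x) ⟨x, rfl⟩ x (TS.comp_self x) y hy
    · have h1 : T.Hom x y := by
        by_contra hc
        exact hy (Or.inr hc)
      exact X.cross (hφ1 x) (hφ1 y) h1
  have hinj : Injective φ := fun x y h => (X.eqv (hφ x y)).mpr h
  obtain ⟨f0, -⟩ := X.f0
  have hsurj : Surjective φ := by
    have h1 : Injective (f0.symm ∘ φ) := f0.symm.injective.comp hinj
    have h2 : Surjective (f0.symm ∘ φ) := Finite.injective_iff_surjective.mp h1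
    intro w
    obtain ⟨v, hv⟩ := h2 (f0.symm w)
    exact ⟨v, f0.symm.injective hv⟩
  exact ⟨Equiv.ofBijective φ ⟨hinj, hsurj⟩, hφ⟩

end XS

end Pool.Agent.W185.Half
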