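import Pool.Agent.W185.Half.Game
import Pool.Agent.W185.Half.Glue

/-!
# The induction
-/

set_option autoImplicit false

namespace Pool.Agent.W185.Half

open Function Finset

section lists

variable {V W : Type} {k : ℕ} {G : SimpleGraph V} {H : SimpleGraph W} {p : List V} {q : List W}

theorem E.swap2 {x y : V} {u v : W} (h : E k G H (x :: y :: p) (u :: v :: q))
    (hk : p.length + 2 ≤ k) : E k G H (y :: x :: p) (v :: u :: q) := by
  have hl := h.len
  refine h.sub (by simp only [List.length_cons]; omega) (by simpa using hl) (by simp) ?_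
  intro r hr
  simp only [List.zip_cons_cons, List.mem_cons] at hr ⊢
  tauto

theorem E.fst2 {x y : V} {u v : W} (h : E k G H (x :: y :: p) (u :: v :: q))
    (hk : p.length + 2 ≤ k) : E k G H (x :: p) (u :: q) := by
  have hl := h.len
  refine h.sub (by simp only [List.length_cons]; omega) (by simpa using hl) (by simp) ?_
  intro r hr
  simp only [List.zip_cons_cons, List.mem_cons] at hr ⊢
  tauto

theorem E.dup1 {x : V} {u : W} (h : E k G H (x :: p) (u :: q))
    (hk : p.length + 1 ≤ k) : E k G H (x :: x :: p) (u :: u :: q) := by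
  have hl := h.len
  refine h.sub (by simp only [List.length_cons]; omega) (by simpa using hl) (by simp) ?_
  intro r hr
  simp only [List.zip_cons_cons, List.mem_cons] at hr ⊢
  tauto

theorem E.rot3 {x y z : V} {u v w : W} (h : E k G H (z :: x :: y :: p) (w :: u :: v :: q))
    (hk : p.length + 3 ≤ k) : E k G H (x :: y :: z :: p) (u :: v :: w :: q) := by
  have hl := h.len
  refine h.sub (by simp only [List.length_cons]; omega) (by simpa using hl) (by simp) ?_
  intro r hr
  simp only [List.zip_cons_cons, List.mem_cons] at hr ⊢
  tauto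

theorem E.rev3 {x y z : V} {u v w : W} (h : E k G H (x :: y :: z :: p) (u :: v :: w :: q))
    (hk : p.length + 3 ≤ k) : E k G H (z :: y :: x :: p) (w :: v :: u :: q) := by
  have hl := h.len
  refine h.sub (by simp only [List.length_cons]; omega) (by simpa using hl) (by simp) ?_
  intro r hr
  simp only [List.zip_cons_cons, List.mem_cons] at hr ⊢
  tauto

theorem E.s12 {x y z : V} {u v w : W} (h : E k G H (x :: y :: z :: p) (u :: v :: w :: q))
    (hk : p.length + 3 ≤ k) : E k G H (x :: y :: p) (u :: v :: q) := by
  have hl := h.len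
  refine h.sub (by simp only [List.length_cons]; omega) (by simpa using hl) (by simp) ?_
  intro r hr
  simp only [List.zip_cons_cons, List.mem_cons] at hr ⊢
  tauto

theorem E.s13 {x y z : V} {u v w : W} (h : E k G H (x :: y :: z :: p) (u :: v :: w :: q))
    (hk : p.length + 3 ≤ k) : E k G H (x :: z :: p) (u :: w :: q) := by
  have hl := h.len
  refine h.sub (by simp only [List.length_cons]; omega) (by simpa using hl) (by simp) ?_
  intro r hr
  simp only [List.zip_cons_cons, List.mem_cons] at hr ⊢
  tauto

theorem E.s23 {x y z : V} {u v w : W} (h : E k G H (x :: y :: z :: p) (u :: v :: w :: q))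
    (hk : p.length + 3 ≤ k) : E k G H (y :: z :: p) (v :: w :: q) := by
  have hl := h.len
  refine h.sub (by simp only [List.length_cons]; omega) (by simpa using hl) (by simp) ?_
  intro r hr
  simp only [List.zip_cons_cons, List.mem_cons] at hr ⊢
  tauto

theorem E.eqv2 {x y : V} {u v : W} (h : E k G H (x :: y :: p) (u :: v :: q))
    (hk : p.length + 2 ≤ k) : (x = y ↔ u = v) ∧ (G.Adj x y ↔ H.Adj u v) := by
  exact h.atomic (by simp only [List.length_cons]; omega) (q := (x, u)) (r := (y, v)) (by simp) (by simp)

theorem multi (h0 : ∃ f : V ≃ W, ∀ v, E k G H (v :: p) (f v :: q)) :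
    ∀ l : List V, l ≠ [] → p.length + l.length ≤ k →
      ∃ l' : List W, l'.length = l.length ∧ E k G H (l ++ p) (l' ++ q) := by
  intro l
  induction l with
  | nil => intro h; exact absurd rfl h
  | cons v l ih =>
    intro _ hk
    by_cases hl : l = []
    · subst hl
      obtain ⟨f, hf⟩ := h0
      exact ⟨[f v], rfl, hf v⟩
    · obtain ⟨l', hl', hE⟩ := ih hl (by simp at hk; omega)
      obtain ⟨f, hf⟩ := hE.forth (by simp at hk ⊢; omega)
      exact ⟨f v :: l', by simp [hl'], hf v⟩

end lists

variable {V W : Type} {k : ℕ}

/-- The types over the pinned vertices `p`. -/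
def ts (k : ℕ) (G : SimpleGraph V) (p : List V) (hk : p.length + 3 ≤ k) : TS V where
  t1 x u := E k G G (x :: p) (u :: p)
  t2 x y u v := E k G G (x :: y :: p) (u :: v :: p)
  t3 x y z u v w := E k G G (x :: y :: z :: p) (u :: v :: w :: p)
  refl1 x := E.refl G x p
  symm1 h := h.symm
  trans1 h h' := h.trans h'
  refl2 x y := E.refl G x (y :: p)
  symm2 h := h.symm
  trans2 h h' := h.trans h'
  refl3 x y z := E.refl G x (y :: z :: p)
  symm3 h := h.symm
  trans3 h h' := h.trans h'
  p1 h := h.fst2 (by omega)
  swap h := h.swap2 (by omega)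
  dg h := h.dup1 (by omega)
  eqv h := (h.eqv2 (by omega)).1
  p12 h := h.s12 hk
  p13 h := h.s13 hk
  p23 h := h.s23 hk
  f1 := by
    intro x u h
    obtain ⟨f, hf⟩ := h.forth (by simp; omega)
    exact ⟨f, fun y => (hf y).swap2 (by omega)⟩
  f2 := by
    intro x y u v h
    obtain ⟨f, hf⟩ := h.forth (by simp; omega)
    exact ⟨f, fun z => (hf z).rot3 hk⟩

/-- Number of cells over `p`. -/
noncomputable def cl (k : ℕ) (G : SimpleGraph V) (p : List V) : ℕ :=
  cls (⟨fun x y => E k G G (x :: p) (y :: p), fun x => E.refl G x p, fun h => h.symm,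
    fun h h' => h.trans h'⟩ : Setoid V)

theorem cl_le [Fintype V] (G : SimpleGraph V) (p : List V) : cl k G p ≤ Fintype.card V :=
  cls_le _

theorem cl_S1 (G : SimpleGraph V) (p : List V) (hk : p.length + 3 ≤ k) :
    cls (ts k G p hk).S1 = cl k G p := rfl

theorem cl_S2 (G : SimpleGraph V) (p : List V) (hk : p.length + 3 ≤ k) (x : V) :
    cls ((ts k G p hk).S2 x) = cl k G (x :: p) := by
  unfold cl
  congr 1
  ext y z
  exact ⟨fun h => h.swap2 (by omega), fun h => h.swap2 (by omega)⟩

theorem cl_S3 (G : SimpleGraph V) (p : List V) (hk : p.length + 3 ≤ k) (x y : V) :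
    cls ((ts k G p hk).S3 x y) = cl k G (y :: x :: p) := by
  unfold cl
  congr 1
  ext z w
  exact ⟨fun h => h.rev3 hk, fun h => h.rev3 hk⟩

theorem main_ind [Fintype V] [Fintype W] (G : SimpleGraph V) (H : SimpleGraph W) :
    ∀ (d : ℕ) (p : List V) (q : List W), p.length = q.length →
      (∃ f : V ≃ W, ∀ v, E k G H (v :: p) (f v :: q)) → Fintype.card V ≤ cl k G p + d →
      5 * p.length + 2 * d + 50 ≤ 5 * k →
      ∃ φ : V ≃ W, ∀ x y, E k G H (x :: y :: p) (φ x :: φ y :: q) := by
  classical
  intro d
  induction d using Nat.strong_induction_on with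
  | _ d ih =>
    intro p q hpq h0 hd hk
    have hk3 : p.length + 3 ≤ k := by omega
    by_cases hx : ∃ x, cl k G p + 3 ≤ cl k G (x :: p)
    · obtain ⟨x, hx⟩ := hx
      have hd3 : 3 ≤ d := by
        have := cl_le (k := k) G (x :: p)
        omega
      obtain ⟨f, hf⟩ := h0
      have h1 := (hf x).forth (by simp; omega)
      obtain ⟨φ, hφ⟩ := ih (d - 3) (by omega) (x :: p) (f x :: q) (by simpa using hpq) h1
        (by omega) (by simp only [List.length_cons]; omega)
      refine ⟨φ, fun y z => ?_⟩
      exact (hφ y z).s12 hk3
    by_cases hxy : ∃ x y, cl k G p + 5 ≤ cl k G (y :: x :: p)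
    · obtain ⟨x, y, hxy⟩ := hxy
      have hd5 : 5 ≤ d := by
        have := cl_le (k := k) G (y :: x :: p)
        omega
      obtain ⟨f, hf⟩ := h0
      obtain ⟨f1, hf1⟩ := (hf x).forth (by simp; omega)
      have h2 := (hf1 y).forth (by simp; omega)
      obtain ⟨φ, hφ⟩ := ih (d - 5) (by omega) (y :: x :: p) (f1 y :: f x :: q)
        (by simpa using hpq) h2 (by omega) (by simp only [List.length_cons]; omega)
      refine ⟨φ, fun u v => ?_⟩
      have h3 := (hφ u v).s12 (by simp only [List.length_cons]; omega)
      exact h3.s12 hk3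
    -- the terminal case
    have hT : ∀ x, (ts k G p hk3).TT1 x ∨ (ts k G p hk3).TT2 x ∨ (ts k G p hk3).TT3 x := by
      apply TS.stuck
      · intro x
        rw [cl_S2, cl_S1]
        by_contra hc
        exact hx ⟨x, by omega⟩
      · intro x y
        rw [cl_S3, cl_S1]
        by_contra hc
        exact hxy ⟨x, y, by omega⟩
    let X : XS (ts k G p hk3) W :=
      { X1 := fun x u => E k G H (x :: p) (u :: q)
        X2 := fun x y u v => E k G H (x :: y :: p) (u :: v :: q)
        X3 := fun x y z u v w => E k G H (x :: y :: z :: p) (u :: v :: w :: q)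
        comp1 := fun {x y w} (h : E k G G (x :: p) (y :: p)) h' => E.trans h h'
        back1 := fun h h' => E.trans h h'.symm
        comp2 := fun {x y u v w z} (h : E k G G (x :: y :: p) (u :: v :: p)) h' => E.trans h h'
        back2 := fun h h' => E.trans h h'.symm
        p1 := fun h => h.fst2 (by omega)
        swap := fun h => h.swap2 (by omega)
        dg := fun h => h.dup1 (by omega)
        eqv := fun h => (h.eqv2 (by omega)).1
        p13 := fun h => h.s13 hk3
        p23 := fun h => h.s23 hk3
        f0 := h0
        f1 := by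
          intro x u h
          obtain ⟨f, hf⟩ := h.forth (by simp; omega)
          exact ⟨f, fun y => (hf y).swap2 (by omega)⟩
        f2 := by
          intro x y u v h
          obtain ⟨f, hf⟩ := h.forth (by simp; omega)
          exact ⟨f, fun z => (hf z).rot3 hk3⟩
        small := by
          intro s hs
          by_cases hne : s.toList = []
          · have : s = ∅ := Finset.toList_eq_nil.mp hne
            subst this
            obtain ⟨f, -⟩ := h0
            exact ⟨f, fun x hx => absurd hx (Finset.notMem_empty x)⟩
          · obtain ⟨l', hl', hE⟩ := multi h0 s.toList hne (by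
              rw [Finset.length_toList]; omega)
            have hex : ∀ x, ∃ w : W, x ∈ s → (x, w) ∈ List.zip s.toList l' := by
              intro x
              by_cases hxs : x ∈ s
              · obtain ⟨i, hi, hix⟩ := List.mem_iff_getElem.mp (Finset.mem_toList.mpr hxs)
                have hi' : i < l'.length := by omega
                refine ⟨l'[i], fun _ => List.mem_iff_getElem.mpr ⟨i, ?_, ?_⟩⟩
                · rw [List.length_zip]; omega
                · rw [List.getElem_zip, hix]
              · obtain ⟨f, -⟩ := h0
                exact ⟨f x, fun h => absurd h hxs⟩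
            choose g hg using hex
            refine ⟨g, fun x hx y hy => ?_⟩
            refine hE.sub ?_ (by simpa using hpq) (by simp) ?_
            · rw [List.length_append, Finset.length_toList]; omega
            · intro r hr
              rw [List.zip_append hl'.symm, List.mem_append]
              simp only [List.zip_cons_cons, List.mem_cons] at hr
              rcases hr with rfl | rfl | hr
              · exact Or.inl (hg x hx)
              · exact Or.inl (hg y hy)
              · exact Or.inr hr }
    exact X.glue hT

/-- Every graph with `n` vertices is identified by counting logic with `k` variables if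
`5 k ≥ 2 n + 50`. -/
theorem identify [Fintype V] [Fintype W] (G : SimpleGraph V) (H : SimpleGraph W)
    (hk : 2 * Fintype.card V + 50 ≤ 5 * k) (R : (Fin k → V) → (Fin k → W) → Prop)
    (hR : Good k G H R) (h0 : ∃ f : V ≃ W, ∀ v : V, R (fun _ => v) (fun _ => f v)) :
    Nonempty (G ≃g H) := by
  have h1 : ∃ f : V ≃ W, ∀ v, E k G H [v] [f v] := by
    obtain ⟨f, hf⟩ := h0
    refine ⟨f, fun v => ⟨rfl, R, hR, ?_⟩⟩
    have h2 : ∀ {U : Type} (u : U), tup k u [] = fun _ => u := by
      intro U u
      funext i
      unfold tup
      rcases Nat.eq_zero_or_pos (i : ℕ) with h | h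
      · rw [h]; rfl
      · exact List.getD_eq_default _ _ (by simp only [List.length_singleton]; omega)
    rw [h2, h2]
    exact hf v
  obtain ⟨φ, hφ⟩ := main_ind (k := k) G H (Fintype.card V) [] [] rfl h1 (by omega)
    (by simp only [List.length_nil]; omega)
  refine ⟨⟨φ, ?_⟩⟩
  intro x y
  exact ((hφ x y).eqv2 (by simp only [List.length_nil]; omega)).2.symm

end Pool.Agent.W185.Half
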