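import Pool.Agent.W185.Half.Types

/-!
# Two cells which interact
-/

set_option autoImplicit false

namespace Pool.Agent.W185.Half

open Function Finset

namespace TS

variable {V : Type} [Fintype V] {T : TS V}

/-- If fixing a vertex never gives three new cells and the cell of `x` interacts with that of
`d`, then the cells have rank two and interact with no other cell. -/
theorem pair_basic (c2 : ∀ x, cls (T.S2 x) ≤ cls T.S1 + 2) {x d d' : V} (hxd : ¬ T.t1 x d)
    (hdd : T.t1 d d') (hn : ¬ T.t2 x d x d') :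
    (∀ y, ¬ T.t1 x y → ¬ T.t1 d y → T.Hom x y) ∧ T.Rk2 x ∧
    (∀ w, T.t1 d w → T.t2 x w x d ∨ T.t2 x w x d') ∧ cls T.S1 + 2 ≤ cls (T.S2 x) ∧
    ∃ x1, x1 ≠ x ∧ T.t1 x x1 := by
  have hx1 : ∃ x1, x1 ≠ x ∧ T.t1 x x1 := by
    by_contra hc
    push Not at hc
    exact hn (hom_of_single (T := T) (fun z hz => by_contra fun h => hc z h hz) d' hdd)
  obtain ⟨x1, hx1, hxx1⟩ := hx1
  have hS : ∀ y z, T.S2 x y z → T.S1 y z := fun y z h => S2_S1 h
  have hself : ∀ z, z ≠ x → ¬ T.S2 x x z := by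
    intro z hz h
    have h' : T.t2 x x x z := h
    exact hz ((T.eqv h').mp rfl).symm
  have hbound : ¬ cls T.S1 + 3 ≤ cls (T.S2 x) := by
    have := c2 x
    omega
  refine ⟨?_, ?_, ?_, ?_, x1, hx1, hxx1⟩
  · intro y hy1 hy2 y' hy'
    by_contra hc
    refine hbound (cls3 T.S1 (T.S2 x) hS x d y x1 d' y' hxx1 hdd hy' (hself _ hx1) hn hc
      ?_ ?_ ?_ ?_ ?_ ?_)
    · intro h; exact absurd h hxd
    · intro h; exact absurd h hy1
    · intro h; exact absurd h hy2
    · intro h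
      exact hxd (T.trans1 hxx1 (T.trans1 (hS _ _ h) (T.symm1 hdd)))
    · intro h
      exact hy1 (T.trans1 hxx1 (T.trans1 (hS _ _ h) (T.symm1 hy')))
    · intro h
      exact hy2 (T.trans1 hdd (T.trans1 (hS _ _ h) (T.symm1 hy')))
  · intro y z hy hz hyx hzx
    by_contra hc
    refine hbound (cls3 T.S1 (T.S2 x) hS x x d y z d' hy hz hdd (hself _ hyx) (hself _ hzx) hn
      ?_ ?_ ?_ hc ?_ ?_)
    · intro h; rfl
    · intro h; exact absurd h hxd
    · intro h; exact absurd h hxd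
    · intro h
      exact hxd (T.trans1 hy (T.trans1 (hS _ _ h) (T.symm1 hdd)))
    · intro h
      exact hxd (T.trans1 hz (T.trans1 (hS _ _ h) (T.symm1 hdd)))
  · intro w hw
    by_contra hc
    push Not at hc
    refine hbound (cls3 T.S1 (T.S2 x) hS x d d x1 d' w hxx1 hdd hw (hself _ hx1) hn
      (fun h => hc.1 (T.symm2 h)) ?_ ?_ ?_ ?_ ?_ (fun h => hc.2 (T.symm2 h)))
    · intro h; exact absurd h hxd
    · intro h; exact absurd h hxd
    · intro h; rfl
    · intro h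
      exact hxd (T.trans1 hxx1 (T.trans1 (hS _ _ h) (T.symm1 hdd)))
    · intro h
      exact hxd (T.trans1 hxx1 (T.trans1 (hS _ _ h) (T.symm1 hw)))
  · refine cls2 T.S1 (T.S2 x) hS x d x1 d' hxx1 hdd (hself _ hx1) hn ?_ ?_
    · intro h; exact absurd h hxd
    · intro h
      exact hxd (T.trans1 hxx1 (T.trans1 (hS _ _ h) (T.symm1 hdd)))

/-- The number of vertices which look from `u` like `d` from `x` does not depend on `u` in the
cell of `x`. -/
theorem card_nb {x u e e' : V} (h : T.t1 u x) [DecidablePred fun z => T.t2 u z e e']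
    [DecidablePred fun z => T.t2 x z e e'] :
    (univ.filter fun z => T.t2 u z e e').card = (univ.filter fun z => T.t2 x z e e').card := by
  obtain ⟨f, hf⟩ := T.f1 h
  refine Finset.card_bijective f f.bijective ?_
  intro z
  simp only [mem_filter, mem_univ, true_and]
  exact ⟨fun h1 => T.trans2 (T.symm2 (hf z)) h1, fun h1 => T.trans2 (hf z) h1⟩

/-- If all neighbours of `x` are neighbours of `y`, a contradiction arises. -/
theorem no_contain {x y d d' : V} (hxy : y ≠ x) (hx : T.t1 x y) (hdd : T.t1 d d')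
    (hn : ¬ T.t2 x d x d') (hr : T.Rk2 x) : ∃ w, T.t2 x w x d ∧ ¬ T.t2 y w x d := by
  classical
  by_contra hc
  push Not at hc
  -- all vertices of the cell have the same neighbours
  have hall : ∀ c, T.t1 x c → ∀ w, T.t2 c w x d → T.t2 x w x d := by
    intro c hcx w hw
    by_cases hcx' : c = x
    · rw [hcx'] at hw; exact hw
    have hsub : (univ.filter fun z => T.t2 x z x d) ⊆ (univ.filter fun z => T.t2 c z x d) := by
      intro z hz
      simp only [mem_filter, mem_univ, true_and] at hz ⊢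
      by_contra hzc
      -- transport to `y`
      obtain ⟨f, hf⟩ := T.f2 (hr c y hcx hx hcx' hxy)
      have h1 : T.t2 x (f z) x d := T.trans2 (T.symm2 (T.p13 (hf z))) hz
      have h2 := hc (f z) h1
      exact hzc (T.trans2 (T.p23 (hf z)) h2)
    have heq := Finset.eq_of_subset_of_card_le hsub (card_nb (T.symm1 hcx)).le
    have : w ∈ (univ.filter fun z => T.t2 c z x d) := by simpa using hw
    rw [← heq] at this
    simpa using this
  obtain ⟨f, hf⟩ := T.f1 hdd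
  have h1 := hf x
  -- `(d, x) ≡ (d', f x)`
  have h2 : T.t2 (f x) d' x d := T.symm2 (T.swap h1)
  have h3 := hall (f x) (p2 h1) d' h2
  exact hn (T.symm2 h3)

theorem matching (c2 : ∀ x, cls (T.S2 x) ≤ cls T.S1 + 2)
    (c3 : ∀ x y, cls (T.S3 x y) ≤ cls T.S1 + 4) {x d d' : V} (hxd : ¬ T.t1 x d)
    (hdd : T.t1 d d') (hn : ¬ T.t2 x d x d') :
    (∀ c, T.t1 x c → c ≠ x → ∀ w, T.t2 x w x d → ¬ T.t2 c w x d) ∨
    (∀ c, T.t1 x c → c ≠ x → ∀ w, T.t2 x w x d' → ¬ T.t2 c w x d') := by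
  by_contra hc
  push Not at hc
  obtain ⟨⟨y, hy, hyx, w1, hw1, hw1'⟩, ⟨c, hcx, hcx', w2, hw2, hw2'⟩⟩ := hc
  obtain ⟨hb1, hr, hty, hcl, x1, hx1, hxx1⟩ := pair_basic c2 hxd hdd hn
  have hn' : ¬ T.t2 x d' x d := fun h => hn (T.symm2 h)
  obtain ⟨v2, hv2, hv2'⟩ := mv (hr c y hcx hy hcx' hyx) hw2 hw2'
  -- neighbours of the other kind
  obtain ⟨w1', hw3, hw3'⟩ := no_contain hyx hy hdd hn hr
  obtain ⟨v2', hv3, hv3'⟩ := no_contain (d := d') (d' := d) hyx hy (T.symm1 hdd) hn' hr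
  -- a third vertex in the cell of `x`
  have hy2 : ∃ y2, T.t1 x y2 ∧ ¬ T.t2 y2 w1 x d := by
    by_contra hc
    push Not at hc
    have hw1c : T.t1 w1 d' := T.trans1 (p2 hw1) hdd
    obtain ⟨f, hf⟩ := T.f1 hw1c
    have h1 := hf (f.symm x)
    rw [Equiv.apply_symm_apply] at h1
    have h2 := hc (f.symm x) (T.symm1 (p2 h1))
    have h3 := T.swap h1
    exact hn' (T.trans2 (T.symm2 h3) h2)
  obtain ⟨y2, hy2, hy2'⟩ := hy2
  have hy2x : y2 ≠ x := by
    rintro rfl
    exact hy2' hw1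
  have hy2y : y2 ≠ y := by
    rintro rfl
    exact hy2' hw1'
  have key : cls (T.S2 x) + 3 ≤ cls (T.S3 x y) := by
    refine cls3 (T.S2 x) (T.S3 x y) (fun a b h => S3_S2 h) y w1 v2 y2 w1' v2'
      (hr y y2 hy hy2 hyx hy2x) (T.trans2 hw1 (T.symm2 hw3)) (T.trans2 hv2 (T.symm2 hv3))
      ?_ ?_ ?_ ?_ ?_ ?_ ?_ ?_ ?_
    · intro h
      have h' : T.t2 y y y y2 := T.p23 h
      exact hy2y ((T.eqv h').mp rfl).symm
    · intro h
      have h' : T.t2 y w1 y w1' := T.p23 h
      exact hw3' (T.trans2 (T.symm2 h') hw1')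
    · intro h
      have h' : T.t2 y v2 y v2' := T.p23 h
      exact hv3' (T.trans2 (T.symm2 h') hv2')
    · intro h
      have h' : T.t2 x y x w1 := h
      exact absurd (T.trans1 hy (T.trans1 (p2 h') (p2 hw1))) hxd
    · intro h
      have h' : T.t2 x y x v2 := h
      exact absurd (T.trans1 hy (T.trans1 (p2 h') (T.trans1 (p2 hv2) (T.symm1 hdd)))) hxd
    · intro h
      have h' : T.t2 x w1 x v2 := h
      exact absurd (T.trans2 (T.symm2 hw1) (T.trans2 h' hv2)) hn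
    · intro h
      have h' : T.t2 x y2 x w1' := T.p13 h
      exact hxd (T.trans1 hy2 (T.trans1 (p2 h') (p2 hw3)))
    · intro h
      have h' : T.t2 x y2 x v2' := T.p13 h
      exact hxd (T.trans1 hy2 (T.trans1 (p2 h') (T.trans1 (p2 hv3) (T.symm1 hdd))))
    · intro h
      have h' : T.t2 x w1' x v2' := T.p13 h
      exact hn (T.trans2 (T.symm2 hw3) (T.trans2 h' hv3))
  have := c3 x y
  omega

theorem pair_TT2_aux (c2 : ∀ x, cls (T.S2 x) ≤ cls T.S1 + 2) {x d d' : V} (hxd : ¬ T.t1 x d)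
    (hdd : T.t1 d d') (hn : ¬ T.t2 x d x d')
    (hm : ∀ c, T.t1 x c → c ≠ x → ∀ w, T.t2 x w x d → ¬ T.t2 c w x d) : T.TT2 x := by
  obtain ⟨hb1, hr, hty, hcl, x1, hx1, hxx1⟩ := pair_basic c2 hxd hdd hn
  have hnh : ¬ T.Hom x d := fun h => hn (h d' hdd)
  have hnh' : ¬ T.Hom d x := fun h => hnh h.symm
  have hnx : ∃ x', T.t1 x x' ∧ ¬ T.t2 d x d x' := by
    by_contra hc
    push Not at hc
    exact hnh' (fun y' hy' => hc y' hy')
  obtain ⟨x', hx', hx'n⟩ := hnx
  obtain ⟨hb1', hr', -, -, -, -, -⟩ :=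
    pair_basic c2 (fun h => hxd (T.symm1 h)) hx' hx'n
  refine ⟨d, hxd, hnh, ?_, hr, hr', ?_, ?_, ?_⟩
  · intro y h1 h2
    exact ⟨hb1 y h1 h2, hb1' y h2 h1⟩
  · intro w hw
    by_contra hwd
    have hdw : T.t1 d w := p2 hw
    have hd'd : d' ≠ d := by
      rintro rfl
      exact hn (T.refl2 _ _)
    obtain ⟨f, hf⟩ := T.f2 (hr' w d' hdw hdd hwd hd'd)
    have h1 := T.p13 (hf x)
    have h2 := T.p23 (hf x)
    -- `(d, x) ≡ (d, f x)` and `(w, x) ≡ (d', f x)`
    have h3 : T.t2 (f x) d x d := T.symm2 (T.swap h1)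
    have h4 : f x = x := by
      by_contra hc
      exact hm (f x) (p2 h1) hc d (T.refl2 _ _) h3
    rw [h4] at h2
    -- `(w, x) ≡ (d', x)`
    exact hn (T.trans2 hw (T.swap h2))
  · intro c hc
    by_contra hcx
    exact hm c (T.p1 hc) hcx d (T.refl2 _ _) (T.symm2 hc)
  · intro y z hy hz hy' hz'
    have h1 := (hty y hy).resolve_left (fun h => hy' (T.symm2 h))
    have h2 := (hty z hz).resolve_left (fun h => hz' (T.symm2 h))
    exact T.trans2 h1 (T.symm2 h2)

theorem pair_TT2 (c2 : ∀ x, cls (T.S2 x) ≤ cls T.S1 + 2)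
    (c3 : ∀ x y, cls (T.S3 x y) ≤ cls T.S1 + 4) {x : V} (h : ¬ T.Iso x) : T.TT2 x := by
  unfold Iso Hom at h
  push Not at h
  obtain ⟨d, hxd, d', hdd, hn⟩ := h
  rcases matching c2 c3 hxd hdd hn with hm | hm
  · exact pair_TT2_aux c2 hxd hdd hn hm
  · exact pair_TT2_aux (d := d') (d' := d) c2 (fun h => hxd (T.trans1 h (T.symm1 hdd)))
      (T.symm1 hdd) (fun h => hn (T.symm2 h)) hm

end TS

end Pool.Agent.W185.Half
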