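import Pool.Agent.W185.Half.Pair

/-!
# An isolated cell of rank three
-/

set_option autoImplicit false

namespace Pool.Agent.W185.Half

open Function Finset

namespace TS

variable {V : Type} [Fintype V] {T : TS V}

/-- The cell of `x` has exactly two other types of pairs, and fixing a second vertex does not
give three new cells. -/
structure R3 (T : TS V) (x a b : V) : Prop where
  ta : T.t1 x a
  tb : T.t1 x b
  ax : a ≠ x
  bx : b ≠ x
  ab : ¬ T.t2 x a x b
  AB : ∀ y, T.t1 x y → y ≠ x → T.t2 x y x a ∨ T.t2 x y x b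
  EX : ∀ y, ¬ cls (T.S2 x) + 3 ≤ cls (T.S3 x y)

variable {x a b : V}

theorem R3.swap (h : R3 T x a b) : R3 T x b a :=
  ⟨h.tb, h.ta, h.bx, h.ax, fun h' => h.ab (T.symm2 h'), fun y h1 h2 => (h.AB y h1 h2).symm, h.EX⟩

theorem R3.no (h : R3 T x a b) {u v : V} (h1 : T.t2 u v x a) (h2 : T.t2 u v x b) : False :=
  h.ab (T.trans2 (T.symm2 h1) h2)

theorem R3.ne (h : R3 T x a b) {u v : V} (h1 : T.t2 u v x a) : u ≠ v := by
  intro huv
  exact h.ax ((T.eqv h1).mp huv).symm

theorem R3.ty (h : R3 T x a b) {u v : V} (hu : T.t1 x u) (hv : T.t1 x v) (huv : u ≠ v) :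
    T.t2 u v x a ∨ T.t2 u v x b := by
  obtain ⟨f, hf⟩ := T.f1 (T.symm1 hu)
  have h1 := hf v
  have h2 : f v ≠ x := by
    intro hc
    exact huv ((T.eqv h1).mpr hc.symm)
  rcases h.AB (f v) (T.trans1 hv (p2 h1)) h2 with h3 | h3
  · exact Or.inl (T.trans2 h1 h3)
  · exact Or.inr (T.trans2 h1 h3)

/-- The excess lemma. -/
theorem R3.ex (h : R3 T x a b) {y z1 z2 w1 w2 : V} (hy : T.t2 x y x a)
    (hz1 : T.t2 x z1 x a) (hz1' : T.t2 y z1 x a) (hz2 : T.t2 x z2 x a) (hz2' : T.t2 y z2 x b)
    (hw1 : T.t2 x w1 x b) (hw1' : T.t2 y w1 x a) (hw2 : T.t2 x w2 x b)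
    (hw2' : T.t2 y w2 x b) : False := by
  refine h.EX y (cls3 (T.S2 x) (T.S3 x y) (fun a b h => S3_S2 h) y y w1 z1 z2 w2
    (T.trans2 hy (T.symm2 hz1)) (T.trans2 hy (T.symm2 hz2)) (T.trans2 hw1 (T.symm2 hw2))
    ?_ ?_ ?_ ?_ ?_ ?_ ?_ ?_ ?_)
  · intro hc
    have h' : T.t2 y y y z1 := T.p23 hc
    exact h.ne hz1' ((T.eqv h').mp rfl)
  · intro hc
    have h' : T.t2 y y y z2 := T.p23 hc
    exact h.swap.ne hz2' ((T.eqv h').mp rfl)
  · intro hc
    have h' : T.t2 y w1 y w2 := T.p23 hc
    exact h.no hw1' (T.trans2 h' hw2')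
  · intro _; rfl
  · intro hc
    have h' : T.t2 x y x w1 := hc
    exact (h.no hy (T.trans2 h' hw1)).elim
  · intro hc
    have h' : T.t2 x y x w1 := hc
    exact (h.no hy (T.trans2 h' hw1)).elim
  · intro hc
    have h' : T.t2 y z1 y z2 := T.p23 hc
    exact h.no hz1' (T.trans2 h' hz2')
  · intro hc
    have h' : T.t2 x z1 x w2 := T.p13 hc
    exact h.no hz1 (T.trans2 h' hw2)
  · intro hc
    have h' : T.t2 x z2 x w2 := T.p13 hc
    exact h.no hz2 (T.trans2 h' hw2)

theorem R3.symb (h : R3 T x a b) (hs : T.t2 a x x a) {u v : V} (h1 : T.t2 u v x b) :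
    T.t2 v u x b := by
  have hu : T.t1 x u := T.symm1 (T.p1 h1)
  have hv : T.t1 x v := T.trans1 h.tb (T.symm1 (p2 h1))
  rcases h.ty hv hu (h.swap.ne h1).symm with h2 | h2
  · exact (h.no (T.trans2 (T.swap h2) hs) h1).elim
  · exact h2

theorem R3.TT1 (h : R3 T x a b) (hiso : T.Iso x) (hs : T.t2 a x x a)
    (hi : ∀ z, T.t2 x z x a → ¬ T.t2 a z x b) : T.TT1 x := by
  classical
  have hloc : ∀ z, T.t2 a z x a → z = x ∨ T.t2 x z x a := by
    have hsub : insert x ((univ.filter fun z => T.t2 x z x a).erase a) ⊆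
        (univ.filter fun z => T.t2 a z x a) := by
      intro z hz
      simp only [mem_insert, mem_erase, mem_filter, mem_univ, true_and] at hz ⊢
      rcases hz with rfl | ⟨hza, hz⟩
      · exact hs
      · rcases h.ty h.ta (T.trans1 h.ta (T.symm1 (p2 hz))) (Ne.symm hza) with h3 | h3
        · exact h3
        · exact absurd h3 (hi z hz)
    have hcard : (insert x ((univ.filter fun z => T.t2 x z x a).erase a)).card =
        (univ.filter fun z => T.t2 x z x a).card := by
      have hx : x ∉ (univ.filter fun z => T.t2 x z x a).erase a := by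
        simp only [mem_erase, mem_filter, mem_univ, true_and, not_and]
        intro _ h3
        exact h.ne h3 rfl
      rw [card_insert_of_notMem hx]
      have ha : a ∈ (univ.filter fun z => T.t2 x z x a) := by
        simp [T.refl2]
      exact card_erase_add_one ha
    have heq := Finset.eq_of_subset_of_card_le hsub
      (by rw [hcard]; exact (card_nb (T.symm1 h.ta)).le)
    intro z hz
    have : z ∈ (univ.filter fun z => T.t2 a z x a) := by simpa using hz
    rw [← heq] at this
    simp only [mem_insert, mem_erase, mem_filter, mem_univ, true_and] at this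
    exact this.imp id (fun h => h.2)
  refine ⟨hiso, a, h.ax, hs, ?_, ?_⟩
  · intro u v w huv hvw
    obtain ⟨f, hf⟩ := T.f2 huv
    have h1 := T.p13 (hf w)
    have h2 := T.p23 (hf w)
    rcases hloc (f w) (T.trans2 (T.symm2 h2) hvw) with h3 | h3
    · left
      exact (T.eqv h1).mpr h3.symm
    · right
      exact T.trans2 h1 h3
  · intro y z hy hz hyx hzx h1 h2
    have h3 := (h.AB y hy hyx).resolve_left h1
    have h4 := (h.AB z hz hzx).resolve_left h2
    exact T.trans2 h3 (T.symm2 h4)

/-- In the symmetric case without equivalence relations, the first subconstituent of the first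
relation has only pairs of the second one. -/
theorem R3.noA (h : R3 T x a b) (hs : T.t2 a x x a) {z0 z0' : V}
    (h1 : T.t2 x z0 x a) (h2 : T.t2 a z0 x b) (h3 : T.t2 x z0' x b) (h4 : T.t2 b z0' x a) :
    ∀ z, T.t2 x z x a → ¬ T.t2 a z x a := by
  classical
  intro z hz hz'
  have htB : ∀ w, T.t2 x w x b → T.t1 x w := fun w hw => T.trans1 h.tb (T.symm1 (p2 hw))
  have haw : ∀ w, T.t2 x w x b → a ≠ w := by
    rintro w hw rfl
    exact h.ab hw
  by_cases hc1 : ∃ w1, T.t2 x w1 x b ∧ T.t2 a w1 x a
  · by_cases hc2 : ∃ w2, T.t2 x w2 x b ∧ T.t2 a w2 x b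
    · obtain ⟨w1, hw1, hw1'⟩ := hc1
      obtain ⟨w2, hw2, hw2'⟩ := hc2
      exact h.ex (T.refl2 _ _) hz hz' h1 h2 hw1 hw1' hw2 hw2'
    · push Not at hc2
      -- everything in `A` is joined to `b`
      have hA : ∀ y, T.t2 x y x a → T.t2 b y x a := by
        intro y hy
        have hyt : T.t1 x y := T.trans1 h.ta (T.symm1 (p2 hy))
        have hyb : y ≠ b := by
          rintro rfl
          exact h.ab (T.symm2 hy)
        rcases h.ty hyt h.tb hyb with h5 | h5
        · exact T.trans2 (T.swap h5) hs
        · obtain ⟨z', hz1, hz2⟩ := mv hy (T.refl2 x b) h5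
          exact absurd hz2 (hc2 z' hz1)
      have hsub : insert z0' (univ.filter fun z => T.t2 x z x a) ⊆
          (univ.filter fun z => T.t2 b z x a) := by
        intro w hw
        simp only [mem_insert, mem_filter, mem_univ, true_and] at hw ⊢
        rcases hw with rfl | hw
        · exact h4
        · exact hA w hw
      have h5 := card_le_card hsub
      rw [card_insert_of_notMem (by
        simp only [mem_filter, mem_univ, true_and]
        exact fun h6 => h.no h6 h3), card_nb (T.symm1 h.tb)] at h5
      omega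
  · push Not at hc1
    have hsub : insert z0 (univ.filter fun z => T.t2 x z x b) ⊆
        (univ.filter fun z => T.t2 a z x b) := by
      intro w hw
      simp only [mem_insert, mem_filter, mem_univ, true_and] at hw ⊢
      rcases hw with rfl | hw
      · exact h2
      · exact (h.ty h.ta (htB w hw) (haw w hw)).resolve_left (hc1 w hw)
    have h5 := card_le_card hsub
    rw [card_insert_of_notMem (by
      simp only [mem_filter, mem_univ, true_and]
      exact fun h6 => h.no h1 h6), card_nb (T.symm1 h.ta)] at h5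
    omega

theorem arith3 {m n p q : ℕ} (h1 : m + 1 = p) (h2 : n + q = p + 1) (h3 : p * m = q * n) :
    p + q ≤ 4 := by
  subst h1
  have h2' : (n : ℤ) = m + 2 - q := by
    have : (n : ℤ) + q = m + 1 + 1 := by exact_mod_cast h2
    linarith
  have h3' : ((m : ℤ) + 1) * m = q * n := by exact_mod_cast h3
  rw [h2'] at h3'
  have h4 : ((m : ℤ) + 1 + q) ≤ 4 := by
    by_contra hc
    push Not at hc
    nlinarith [sq_nonneg ((m : ℤ) + 1 - q)]
  have h5 : ((m + 1 + q : ℕ) : ℤ) ≤ 4 := by push_cast; exact h4
  exact_mod_cast h5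

theorem R3.small (h : R3 T x a b) {s : ℕ}
    [DecidablePred fun z => T.t2 x z x a] [DecidablePred fun z => T.t2 x z x b]
    (hs : (univ.filter fun z => T.t2 x z x a).card + (univ.filter fun z => T.t2 x z x b).card
      ≤ s) : Set.ncard {y | T.t1 x y} ≤ s + 1 := by
  classical
  have hsub : {y | T.t1 x y} ⊆ ((insert x ((univ.filter fun z => T.t2 x z x a) ∪
      (univ.filter fun z => T.t2 x z x b)) : Finset V) : Set V) := by
    intro y hy
    simp only [coe_insert, coe_union, coe_filter, mem_univ, true_and, Set.mem_insert_iff,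
      Set.mem_union, Set.mem_setOf_eq]
    by_cases hyx : y = x
    · exact Or.inl hyx
    · exact Or.inr (h.AB y hy hyx)
  have h1 := Set.ncard_le_ncard hsub (Finset.finite_toSet _)
  rw [Set.ncard_coe_finset] at h1
  have h2 := card_insert_le x ((univ.filter fun z => T.t2 x z x a) ∪
      (univ.filter fun z => T.t2 x z x b))
  have h3 := card_union_le (univ.filter fun z => T.t2 x z x a)
      (univ.filter fun z => T.t2 x z x b)
  omega

/-- The symmetric case. -/
theorem R3.symmCase (h : R3 T x a b) (hiso : T.Iso x) (hs : T.t2 a x x a) :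
    T.TT1 x ∨ T.TT3 x := by
  classical
  have hsb : T.t2 b x x b := h.symb hs (T.refl2 x b)
  by_cases hi : ∀ z, T.t2 x z x a → ¬ T.t2 a z x b
  · exact Or.inl (h.TT1 hiso hs hi)
  by_cases hi' : ∀ z, T.t2 x z x b → ¬ T.t2 b z x a
  · exact Or.inl (h.swap.TT1 hiso hsb hi')
  push Not at hi hi'
  obtain ⟨z0, h1, h2⟩ := hi
  obtain ⟨z0', h3, h4⟩ := hi'
  have noA := h.noA hs h1 h2 h3 h4
  have noB := h.swap.noA hsb h3 h4 h1 h2
  right
  refine ⟨hiso, ?_⟩
  have hsa : ∀ u v, T.t2 u v x a → T.t2 v u x a := fun u v h5 => T.trans2 (T.swap h5) hs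
  have htA : ∀ w, T.t2 x w x a → T.t1 x w := fun w hw => T.trans1 h.ta (T.symm1 (p2 hw))
  have htB : ∀ w, T.t2 x w x b → T.t1 x w := fun w hw => T.trans1 h.tb (T.symm1 (p2 hw))
  refine h.small (s := 4) ?_
  -- double counting
  have hA1 : ∀ y ∈ (univ.filter fun z => T.t2 x z x a),
      ((univ.filter fun z => T.t2 x z x b).bipartiteAbove (fun y z => T.t2 y z x a) y).card =
      (univ.filter fun z => T.t2 x z x a).card - 1 := by
    intro y hy
    have hy' : T.t2 x y x a := by simpa using hy
    have heq : (univ.filter fun z => T.t2 y z x a) =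
        insert x ((univ.filter fun z => T.t2 x z x b).bipartiteAbove
          (fun y z => T.t2 y z x a) y) := by
      ext z
      simp only [bipartiteAbove, mem_insert, mem_filter, mem_univ, true_and]
      constructor
      · intro hz
        by_cases hzx : z = x
        · exact Or.inl hzx
        right
        have hz1 : T.t1 x z := T.trans1 h.ta (T.symm1 (p2 hz))
        rcases h.AB z hz1 hzx with h5 | h5
        · exfalso
          obtain ⟨z', h6, h7⟩ := mv hy' h5 hz
          exact noA z' h6 h7
        · exact ⟨h5, hz⟩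
      · rintro (rfl | ⟨-, hz⟩)
        · exact hsa _ _ hy'
        · exact hz
    have hx : x ∉ ((univ.filter fun z => T.t2 x z x b).bipartiteAbove
          (fun y z => T.t2 y z x a) y) := by
      simp only [bipartiteAbove, mem_filter, mem_univ, true_and, not_and]
      intro h5
      exact absurd rfl (h.swap.ne h5)
    have hc := congrArg Finset.card heq
    rw [card_insert_of_notMem hx, card_nb (T.symm1 (htA y hy'))] at hc
    omega
  have hB1 : ∀ z ∈ (univ.filter fun z => T.t2 x z x b),
      ((univ.filter fun z => T.t2 x z x a).bipartiteBelow (fun y z => T.t2 y z x a) z).card =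
      (univ.filter fun z => T.t2 x z x a).card + 1 -
        (univ.filter fun z => T.t2 x z x b).card := by
    intro z hz
    have hz' : T.t2 x z x b := by simpa using hz
    have heq : (univ.filter fun w => T.t2 z w x a) =
        ((univ.filter fun z => T.t2 x z x b).erase z) ∪
        ((univ.filter fun z => T.t2 x z x a).bipartiteBelow (fun y z => T.t2 y z x a) z) := by
      ext w
      simp only [bipartiteBelow, mem_union, mem_erase, mem_filter, mem_univ, true_and]
      constructor
      · intro hw
        have hw1 : T.t1 x w := T.trans1 h.ta (T.symm1 (p2 hw))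
        by_cases hwx : w = x
        · subst hwx
          exact (h.no hw (h.symb hs hz')).elim
        rcases h.AB w hw1 hwx with h5 | h5
        · exact Or.inr ⟨h5, hsa _ _ hw⟩
        · exact Or.inl ⟨(h.ne hw).symm, h5⟩
      · rintro (⟨hwz, hw⟩ | ⟨-, hw⟩)
        · rcases h.ty (htB z hz') (htB w hw) (Ne.symm hwz) with h5 | h5
          · exact h5
          · exfalso
            obtain ⟨w', h6, h7⟩ := mv hz' hw h5
            exact noB w' h6 h7
        · exact hsa _ _ hw
    have hdisj : Disjoint ((univ.filter fun z => T.t2 x z x b).erase z)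
        ((univ.filter fun z => T.t2 x z x a).bipartiteBelow (fun y z => T.t2 y z x a) z) := by
      rw [Finset.disjoint_left]
      intro w hw1 hw2
      simp only [bipartiteBelow, mem_erase, mem_filter, mem_univ, true_and] at hw1 hw2
      exact h.no hw2.1 hw1.2
    have hc := congrArg Finset.card heq
    rw [card_union_of_disjoint hdisj, card_nb (T.symm1 (htB z hz'))] at hc
    have hz2 : z ∈ (univ.filter fun z => T.t2 x z x b) := hz
    have h6 := card_erase_add_one hz2
    omega
  have hdc := Finset.card_mul_eq_card_mul (fun y z => T.t2 y z x a) hA1 hB1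
  have hposA : 0 < (univ.filter fun z => T.t2 x z x a).card :=
    card_pos.mpr ⟨a, by simp [T.refl2]⟩
  have hle : (univ.filter fun z => T.t2 x z x b).card ≤
      (univ.filter fun z => T.t2 x z x a).card + 1 := by
    have hb : b ∈ (univ.filter fun z => T.t2 x z x b) := by simp [T.refl2]
    have hsub : ((univ.filter fun z => T.t2 x z x b).erase b) ⊆
        (univ.filter fun w => T.t2 b w x a) := by
      intro w hw
      simp only [mem_erase, mem_filter, mem_univ, true_and] at hw ⊢
      rcases h.ty h.tb (htB w hw.2) (Ne.symm hw.1) with h5 | h5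
      · exact h5
      · exact absurd h5 (noB w hw.2)
    have h5 := card_le_card hsub
    rw [card_nb (T.symm1 h.tb)] at h5
    have h6 := card_erase_add_one hb
    omega
  exact arith3 (Nat.sub_add_cancel hposA) (Nat.sub_add_cancel hle) hdc

/-- The antisymmetric case: the first relation has valency one. -/
theorem R3.anti (h : R3 T x a b) (hs : T.t2 a x x b) [DecidablePred fun z => T.t2 x z x a] :
    (univ.filter fun z => T.t2 x z x a).card ≤ 1 := by
  classical
  have an1 : ∀ u v, T.t2 u v x a → T.t2 v u x b := fun u v h5 => T.trans2 (T.swap h5) hs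
  have hs2 : T.t2 b x x a := T.symm2 (T.swap hs)
  have an2 : ∀ u v, T.t2 u v x b → T.t2 v u x a := fun u v h5 => T.trans2 (T.swap h5) hs2
  have htA : ∀ w, T.t2 x w x a → T.t1 x w := fun w hw => T.trans1 h.ta (T.symm1 (p2 hw))
  have htB : ∀ w, T.t2 x w x b → T.t1 x w := fun w hw => T.trans1 h.tb (T.symm1 (p2 hw))
  rw [Finset.card_le_one]
  intro y1 hy1 y2 hy2
  by_contra hne
  have hy1' : T.t2 x y1 x a := by simpa using hy1
  have hy2' : T.t2 x y2 x a := by simpa using hy2
  have hz : (∃ z1, T.t2 x z1 x a ∧ T.t2 a z1 x a) ∧ (∃ z2, T.t2 x z2 x a ∧ T.t2 a z2 x b) := by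
    rcases h.ty (htA y1 hy1') (htA y2 hy2') hne with h5 | h5
    · exact ⟨mv hy1' hy2' h5, mv hy2' hy1' (an1 _ _ h5)⟩
    · exact ⟨mv hy2' hy1' (an2 _ _ h5), mv hy1' hy2' h5⟩
  obtain ⟨⟨z1, hz1, hz1'⟩, ⟨z2, hz2, hz2'⟩⟩ := hz
  have haw : ∀ w, T.t2 x w x b → a ≠ w := by
    rintro w hw rfl
    exact h.ab hw
  by_cases hc1 : ∃ w1, T.t2 x w1 x b ∧ T.t2 a w1 x a
  · by_cases hc2 : ∃ w2, T.t2 x w2 x b ∧ T.t2 a w2 x b
    · obtain ⟨w1, hw1, hw1'⟩ := hc1
      obtain ⟨w2, hw2, hw2'⟩ := hc2
      exact h.ex (T.refl2 _ _) hz1 hz1' hz2 hz2' hw1 hw1' hw2 hw2'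
    · push Not at hc2
      have hA : (univ.filter fun z => T.t2 x z x a) ⊆ (univ.filter fun z => T.t2 b z x b) := by
        intro y hy
        simp only [mem_filter, mem_univ, true_and] at hy ⊢
        have hyb : y ≠ b := by
          rintro rfl
          exact h.ab (T.symm2 hy)
        rcases h.ty (htA y hy) h.tb hyb with h5 | h5
        · exact an1 _ _ h5
        · obtain ⟨z', h6, h7⟩ := mv hy (T.refl2 x b) h5
          exact absurd h7 (hc2 z' h6)
      have h5 := card_le_card hA
      rw [card_nb (T.symm1 h.tb)] at h5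
      have hsub : insert z1 (univ.filter fun z => T.t2 x z x b) ⊆
          (univ.filter fun z => T.t2 a z x a) := by
        intro w hw
        simp only [mem_insert, mem_filter, mem_univ, true_and] at hw ⊢
        rcases hw with rfl | hw
        · exact hz1'
        · exact (h.ty h.ta (htB w hw) (haw w hw)).resolve_right (hc2 w hw)
      have h6 := card_le_card hsub
      rw [card_insert_of_notMem (by
        simp only [mem_filter, mem_univ, true_and]
        exact fun h7 => h.no hz1 h7), card_nb (T.symm1 h.ta)] at h6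
      omega
  · push Not at hc1
    have hsub : insert x (univ.filter fun z => T.t2 x z x b) ⊆
        (univ.filter fun z => T.t2 a z x b) := by
      intro w hw
      simp only [mem_insert, mem_filter, mem_univ, true_and] at hw ⊢
      rcases hw with rfl | hw
      · exact hs
      · exact (h.ty h.ta (htB w hw) (haw w hw)).resolve_left (hc1 w hw)
    have h5 := card_le_card hsub
    rw [card_insert_of_notMem (by
      simp only [mem_filter, mem_univ, true_and]
      exact fun h6 => h.swap.ne h6 rfl), card_nb (T.symm1 h.ta)] at h5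
    omega

theorem R3.result (h : R3 T x a b) (hiso : T.Iso x) : T.TT1 x ∨ T.TT3 x := by
  classical
  rcases h.ty h.ta (T.refl1 x) h.ax with hs | hs
  · exact h.symmCase hiso hs
  · right
    refine ⟨hiso, ?_⟩
    have h1 := h.anti hs
    have h2 := h.swap.anti (T.symm2 (T.swap hs))
    have := h.small (s := 2) (by omega)
    omega

/-- If fixing vertices gives new cells only slowly, then the structure is trivial. -/
theorem stuck (c2 : ∀ x, cls (T.S2 x) ≤ cls T.S1 + 2)
    (c3 : ∀ x y, cls (T.S3 x y) ≤ cls T.S1 + 4) (x : V) : T.TT1 x ∨ T.TT2 x ∨ T.TT3 x := by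
  classical
  by_cases hiso : T.Iso x
  · by_cases hone : ∀ y, T.t1 x y → y = x
    · right; right
      refine ⟨hiso, ?_⟩
      have : {y | T.t1 x y} ⊆ {x} := fun y hy => hone y hy
      have h1 := Set.ncard_le_ncard this (Set.finite_singleton x)
      rw [Set.ncard_singleton] at h1
      omega
    push Not at hone
    obtain ⟨x1, hx1, hx1'⟩ := hone
    by_cases hr : T.Rk2 x
    · left
      have ty : ∀ u v, T.t1 x u → T.t1 x v → u ≠ v → T.t2 u v x x1 := by
        intro u v hu hv huv
        obtain ⟨f, hf⟩ := T.f1 (T.symm1 hu)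
        have h1 := hf v
        have h2 : f v ≠ x := fun hc => huv ((T.eqv h1).mpr hc.symm)
        exact T.trans2 h1 (hr (f v) x1 (T.trans1 hv (p2 h1)) hx1 h2 hx1')
      refine ⟨hiso, x1, hx1', ty x1 x hx1 (T.refl1 x) hx1', ?_, ?_⟩
      · intro u v w h1 h2
        by_cases huw : u = w
        · exact Or.inl huw
        · exact Or.inr (ty u w (T.symm1 (T.p1 h1)) (T.trans1 hx1 (T.symm1 (p2 h2))) huw)
      · intro y z hy hz hyx hzx h1 h2
        exact hr y z hy hz hyx hzx
    · unfold Rk2 at hr
      push Not at hr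
      obtain ⟨a, b, ha, hb, hax, hbx, hab⟩ := hr
      have hS : ∀ y z, T.S2 x y z → T.S1 y z := fun y z h => S2_S1 h
      have hself : ∀ z, z ≠ x → ¬ T.S2 x x z := by
        intro z hz h
        have h' : T.t2 x x x z := h
        exact hz ((T.eqv h').mp rfl).symm
      have hn2 : cls T.S1 + 2 ≤ cls (T.S2 x) :=
        cls2 T.S1 (T.S2 x) hS x x a b ha hb (hself _ hax) (hself _ hbx) (fun _ => rfl) hab
      have hR : R3 T x a b := by
        refine ⟨ha, hb, hax, hbx, hab, ?_, ?_⟩
        · intro y hy hyx
          by_contra hc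
          push Not at hc
          have := cls3 T.S1 (T.S2 x) hS x x x a b y ha hb hy (hself _ hax) (hself _ hbx)
            (hself _ hyx) (fun _ => rfl) (fun _ => rfl) (fun _ => rfl) hab
            (fun h => hc.1 (T.symm2 h)) (fun h => hc.2 (T.symm2 h))
          have := c2 x
          omega
        · intro y hc
          have := c3 x y
          omega
      rcases hR.result hiso with h | h
      · exact Or.inl h
      · exact Or.inr (Or.inr h)
  · exact Or.inr (Or.inl (pair_TT2 c2 c3 hiso))

end TS

end Pool.Agent.W185.Half
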