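import Mathlib

/-!
# Type systems on a vertex set and the lemma on slow refinements
-/

set_option autoImplicit false

namespace Pool.Agent.W185.Half

open Function Finset

/-- Number of classes. -/
noncomputable def cls {V : Type} (S : Setoid V) : ℕ := Nat.card (Quotient S)

theorem cls_le {V : Type} [Fintype V] (S : Setoid V) : cls S ≤ Fintype.card V := by
  rw [← Nat.card_eq_fintype_card]
  exact Nat.card_le_card_of_surjective (Quotient.mk S) Quotient.mk_surjective

theorem cls_lower {V : Type} [Finite V] (S T : Setoid V) (hTS : ∀ x y, T x y → S x y) {j : ℕ}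
    (u z : Fin j → V) (h1 : ∀ i, S (u i) (z i)) (h2 : ∀ i, ¬ T (u i) (z i))
    (h3 : ∀ i i', S (u i) (u i') → u i = u i') (h4 : ∀ i i', T (z i) (z i') → i = i') :
    cls S + j ≤ cls T := by
  classical
  let r : V → V := fun x => if h : ∃ i, S x (u i) then u h.choose else (Quotient.mk S x).out
  have r_rel : ∀ x, S x (r x) := by
    intro x
    by_cases h : ∃ i, S x (u i)
    · have : r x = u h.choose := dif_pos h
      rw [this]
      exact h.choose_spec
    · have : r x = (Quotient.mk S x).out := dif_neg h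
      rw [this]
      exact S.symm' (Quotient.mk_out x)
  have r_u : ∀ i, r (u i) = u i := by
    intro i
    have h : ∃ i', S (u i) (u i') := ⟨i, S.refl' _⟩
    have : r (u i) = u h.choose := dif_pos h
    rw [this]
    exact (h3 _ _ h.choose_spec).symm
  have r_inv : ∀ x y, S x y → r x = r y := by
    intro x y hxy
    by_cases h : ∃ i, S x (u i)
    · have h' : ∃ i, S y (u i) := by
        obtain ⟨i, hi⟩ := h
        exact ⟨i, S.trans' (S.symm' hxy) hi⟩
      have e1 : r x = u h.choose := dif_pos h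
      have e2 : r y = u h'.choose := dif_pos h'
      rw [e1, e2]
      exact h3 _ _ (S.trans' (S.symm' h.choose_spec) (S.trans' hxy h'.choose_spec))
    · have h' : ¬ ∃ i, S y (u i) := by
        rintro ⟨i, hi⟩
        exact h ⟨i, S.trans' hxy hi⟩
      have e1 : r x = (Quotient.mk S x).out := dif_neg h
      have e2 : r y = (Quotient.mk S y).out := dif_neg h'
      rw [e1, e2]
      have : Quotient.mk S x = Quotient.mk S y := Quotient.sound hxy
      rw [this]
  let F : Quotient S ⊕ Fin j → Quotient T :=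
    Sum.elim (fun q => Quotient.mk T (r q.out)) (fun i => Quotient.mk T (z i))
  have hF : Injective F := by
    rintro (q | i) (q' | i') h
    · have h' : T (r q.out) (r q'.out) := Quotient.exact h
      have h'' : S q.out q'.out :=
        S.trans' (r_rel _) (S.trans' (hTS _ _ h') (S.symm' (r_rel _)))
      have : q = q' := by
        rw [← Quotient.out_eq q, ← Quotient.out_eq q']
        exact Quotient.sound h''
      rw [this]
    · exfalso
      have h' : T (r q.out) (z i') := Quotient.exact h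
      have h5 : S q.out (u i') :=
        S.trans' (r_rel _) (S.trans' (hTS _ _ h') (S.symm' (h1 i')))
      rw [r_inv _ _ h5, r_u] at h'
      exact h2 i' h'
    · exfalso
      have h' : T (z i) (r q'.out) := Quotient.exact h
      have h5 : S q'.out (u i) :=
        S.trans' (r_rel _) (S.trans' (S.symm' (hTS _ _ h')) (S.symm' (h1 i)))
      rw [r_inv _ _ h5, r_u] at h'
      exact h2 i (T.symm' h')
    · have h' : T (z i) (z i') := Quotient.exact h
      rw [h4 i i' h']
  have := Nat.card_le_card_of_injective F hF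
  rw [Nat.card_sum, Nat.card_eq_fintype_card (α := Fin j), Fintype.card_fin] at this
  exact this

theorem cls2 {V : Type} [Finite V] (S T : Setoid V) (hTS : ∀ x y, T x y → S x y)
    (u1 u2 z1 z2 : V) (h1 : S u1 z1) (h2 : S u2 z2) (n1 : ¬ T u1 z1) (n2 : ¬ T u2 z2)
    (e12 : S u1 u2 → u1 = u2) (m12 : ¬ T z1 z2) : cls S + 2 ≤ cls T := by
  refine cls_lower S T hTS ![u1, u2] ![z1, z2] ?_ ?_ ?_ ?_
  · intro i; fin_cases i <;> assumption
  · intro i; fin_cases i <;> assumption
  · intro i i' h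
    fin_cases i <;> fin_cases i'
    · rfl
    · exact e12 h
    · exact (e12 (S.symm' h)).symm
    · rfl
  · intro i i' h
    fin_cases i <;> fin_cases i'
    · rfl
    · exact absurd h m12
    · exact absurd (T.symm' h) m12
    · rfl

theorem cls3 {V : Type} [Finite V] (S T : Setoid V) (hTS : ∀ x y, T x y → S x y)
    (u1 u2 u3 z1 z2 z3 : V) (h1 : S u1 z1) (h2 : S u2 z2) (h3 : S u3 z3)
    (n1 : ¬ T u1 z1) (n2 : ¬ T u2 z2) (n3 : ¬ T u3 z3)
    (e12 : S u1 u2 → u1 = u2) (e13 : S u1 u3 → u1 = u3) (e23 : S u2 u3 → u2 = u3)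
    (m12 : ¬ T z1 z2) (m13 : ¬ T z1 z3) (m23 : ¬ T z2 z3) : cls S + 3 ≤ cls T := by
  refine cls_lower S T hTS ![u1, u2, u3] ![z1, z2, z3] ?_ ?_ ?_ ?_
  · intro i; fin_cases i <;> assumption
  · intro i; fin_cases i <;> assumption
  · intro i i' h
    fin_cases i <;> fin_cases i'
    · rfl
    · exact e12 h
    · exact e13 h
    · exact (e12 (S.symm' h)).symm
    · rfl
    · exact e23 h
    · exact (e13 (S.symm' h)).symm
    · exact (e23 (S.symm' h)).symm
    · rfl
  · intro i i' h
    fin_cases i <;> fin_cases i'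
    · rfl
    · exact absurd h m12
    · exact absurd h m13
    · exact absurd (T.symm' h) m12
    · rfl
    · exact absurd h m23
    · exact absurd (T.symm' h) m13
    · exact absurd (T.symm' h) m23
    · rfl

/-- Types of vertices, pairs and triples with the back-and-forth properties. -/
structure TS (V : Type) where
  t1 : V → V → Prop
  t2 : V → V → V → V → Prop
  t3 : V → V → V → V → V → V → Prop
  refl1 : ∀ x, t1 x x
  symm1 : ∀ {x y}, t1 x y → t1 y x
  trans1 : ∀ {x y z}, t1 x y → t1 y z → t1 x z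
  refl2 : ∀ x y, t2 x y x y
  symm2 : ∀ {x y u v}, t2 x y u v → t2 u v x y
  trans2 : ∀ {x y u v w z}, t2 x y u v → t2 u v w z → t2 x y w z
  refl3 : ∀ x y z, t3 x y z x y z
  symm3 : ∀ {x y z u v w}, t3 x y z u v w → t3 u v w x y z
  trans3 : ∀ {x y z u v w a b c}, t3 x y z u v w → t3 u v w a b c → t3 x y z a b c
  p1 : ∀ {x y u v}, t2 x y u v → t1 x u
  swap : ∀ {x y u v}, t2 x y u v → t2 y x v u
  dg : ∀ {x u}, t1 x u → t2 x x u u
  eqv : ∀ {x y u v}, t2 x y u v → (x = y ↔ u = v)
  p12 : ∀ {x y z u v w}, t3 x y z u v w → t2 x y u v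
  p13 : ∀ {x y z u v w}, t3 x y z u v w → t2 x z u w
  p23 : ∀ {x y z u v w}, t3 x y z u v w → t2 y z v w
  f1 : ∀ {x u}, t1 x u → ∃ f : V ≃ V, ∀ y, t2 x y u (f y)
  f2 : ∀ {x y u v}, t2 x y u v → ∃ f : V ≃ V, ∀ z, t3 x y z u v (f z)

namespace TS

variable {V : Type} (T : TS V)

/-- The cells. -/
def S1 : Setoid V := ⟨T.t1, T.refl1, T.symm1, T.trans1⟩

/-- The cells after one vertex is fixed. -/
def S2 (x : V) : Setoid V :=
  ⟨fun y z => T.t2 x y x z, fun y => T.refl2 x y, T.symm2, T.trans2⟩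

/-- The cells after two vertices are fixed. -/
def S3 (x y : V) : Setoid V :=
  ⟨fun z w => T.t3 x y z x y w, fun z => T.refl3 x y z, T.symm3, T.trans3⟩

variable {T}

theorem p2 {x y u v : V} (h : T.t2 x y u v) : T.t1 y v := T.p1 (T.swap h)

theorem S2_S1 {x y z : V} (h : T.S2 x y z) : T.S1 y z := p2 (T := T) h

theorem S3_S2 {x y z w : V} (h : T.S3 x y z w) : T.S2 x z w := T.p13 h

variable (T)

/-- All members of the cell of `y` look the same from `x`. -/
def Hom (x y : V) : Prop := ∀ y', T.t1 y y' → T.t2 x y x y'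

/-- The other members of the cell of `x` look the same from `x`. -/
def Rk2 (x : V) : Prop :=
  ∀ y z, T.t1 x y → T.t1 x z → y ≠ x → z ≠ x → T.t2 x y x z

/-- The cell of `x` is isolated. -/
def Iso (x : V) : Prop := ∀ y, ¬ T.t1 x y → T.Hom x y

/-- The cell of `x` is isolated and small. -/
def TT3 (x : V) : Prop := T.Iso x ∧ Set.ncard {y | T.t1 x y} ≤ 5

/-- The cell of `x` is isolated and carries nothing but an equivalence relation. -/
def TT1 (x : V) : Prop :=
  T.Iso x ∧ ∃ a, a ≠ x ∧ T.t2 a x x a ∧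
    (∀ u v w, T.t2 u v x a → T.t2 v w x a → u = w ∨ T.t2 u w x a) ∧
    (∀ y z, T.t1 x y → T.t1 x z → y ≠ x → z ≠ x → ¬ T.t2 x y x a → ¬ T.t2 x z x a →
      T.t2 x y x z)

/-- The cell of `x` and one other cell form an isolated pair which carries nothing but a
perfect matching. -/
def TT2 (x : V) : Prop :=
  ∃ d, ¬ T.t1 x d ∧ ¬ T.Hom x d ∧
    (∀ y, ¬ T.t1 x y → ¬ T.t1 d y → T.Hom x y ∧ T.Hom d y) ∧ T.Rk2 x ∧ T.Rk2 d ∧
    (∀ d', T.t2 x d x d' → d' = d) ∧ (∀ x', T.t2 x d x' d → x' = x) ∧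
    (∀ y z, T.t1 d y → T.t1 d z → ¬ T.t2 x d x y → ¬ T.t2 x d x z → T.t2 x y x z)

variable {T}

theorem Hom.left {x y x' : V} (h : T.Hom x y) (hx : T.t1 x x') : T.Hom x' y := by
  intro y' hy'
  obtain ⟨f, hf⟩ := T.f1 (T.symm1 hx)
  have h1 := hf y
  have h2 := hf y'
  have h3 := h (f y) (p2 h1)
  have h4 := h (f y') (T.trans1 hy' (p2 h2))
  exact T.trans2 h1 (T.trans2 (T.symm2 h3) (T.trans2 h4 (T.symm2 h2)))

theorem Hom.right {x y y' : V} (h : T.Hom x y) (hy : T.t1 y y') : T.Hom x y' := by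
  intro y'' hy''
  exact T.trans2 (T.symm2 (h y' hy)) (h y'' (T.trans1 hy hy''))

theorem Hom.symm {x y : V} (h : T.Hom x y) : T.Hom y x := by
  intro x' hx'
  obtain ⟨f, hf⟩ := T.f1 hx'
  have h1 := hf y
  have h2 : T.Hom x' y := h.left hx'
  have h3 := h2 (f y) (p2 h1)
  exact T.swap (T.trans2 h1 (T.symm2 h3))

theorem Hom.full {x y x' y' : V} (h : T.Hom x y) (hx : T.t1 x x') (hy : T.t1 y y') :
    T.t2 x y x' y' := by
  have h1 := h.symm x' hx
  exact T.trans2 (T.swap h1) ((h.left hx) y' hy)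

theorem hom_of_single {x y : V} (hx : ∀ z, T.t1 x z → z = x) : T.Hom x y := by
  intro y' hy'
  obtain ⟨f, hf⟩ := T.f1 hy'
  have h1 := hf x
  have h2 : f x = x := hx _ (p2 h1)
  rw [h2] at h1
  exact T.swap h1

/-- Transport of a third vertex. -/
theorem mv {x y y' z c u e e' : V} (h : T.t2 x y x y') (h1 : T.t2 x z u c)
    (h2 : T.t2 y z e e') : ∃ z', T.t2 x z' u c ∧ T.t2 y' z' e e' := by
  obtain ⟨f, hf⟩ := T.f2 h
  exact ⟨f z, T.trans2 (T.symm2 (T.p13 (hf z))) h1, T.trans2 (T.symm2 (T.p23 (hf z))) h2⟩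

end TS

end Pool.Agent.W185.Half
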